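import Mathlib

set_option autoImplicit false

namespace Pool.Agent.Lib.MP_7cb37e_an

open Filter Topology Metric Set MeasureTheory

lemma diff_cauchy {u : ℂ → ℂ} {c : ℂ} {r : ℝ} (hr : 0 ≤ r) (hu : ContinuousOn u (sphere c r))
    {w0 : ℂ} {δ : ℝ} (hδ : 0 < δ) (hdist : ∀ z ∈ sphere c r, 2 * δ ≤ dist z w0) :
    DifferentiableAt ℂ (fun w => ∮ z in C(c, r), u z * (z - w)⁻¹) w0 := by
  have hmem : ∀ θ : ℝ, circleMap c r θ ∈ sphere c r := fun θ => circleMap_mem_sphere c hr θ
  have hne : ∀ θ : ℝ, ∀ w ∈ ball w0 δ, δ ≤ ‖circleMap c r θ - w‖ := by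
    intro θ w hw
    have h1 := hdist _ (hmem θ)
    have h2 : dist w w0 < δ := hw
    have h3 := dist_triangle (circleMap c r θ) w w0
    rw [← dist_eq_norm]
    linarith
  have hne' : ∀ θ : ℝ, ∀ w ∈ ball w0 δ, circleMap c r θ - w ≠ 0 := by
    intro θ w hw h
    have := hne θ w hw
    rw [h, norm_zero] at this
    linarith
  have hcu : Continuous (fun θ : ℝ => u (circleMap c r θ)) :=
    hu.comp_continuous (continuous_circleMap c r) hmem
  have hcd : Continuous (fun θ : ℝ => deriv (circleMap c r) θ) := by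
    have : (fun θ : ℝ => deriv (circleMap c r) θ) = fun θ => circleMap 0 r θ * Complex.I := by
      funext θ; exact deriv_circleMap c r θ
    rw [this]
    exact (continuous_circleMap 0 r).mul continuous_const
  have hcinv : ∀ w ∈ ball w0 δ, Continuous (fun θ : ℝ => (circleMap c r θ - w)⁻¹) := fun w hw =>
    Continuous.inv₀ ((continuous_circleMap c r).sub continuous_const) (fun θ => hne' θ w hw)
  have hw0 : w0 ∈ ball w0 δ := mem_ball_self hδ
  have key := intervalIntegral.hasDerivAt_integral_of_dominated_loc_of_deriv_le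
    (μ := volume) (a := 0) (b := 2 * Real.pi) (𝕜 := ℂ)
    (F := fun w θ => deriv (circleMap c r) θ • (u (circleMap c r θ) * (circleMap c r θ - w)⁻¹))
    (F' := fun w θ => deriv (circleMap c r) θ • (u (circleMap c r θ) *
      ((circleMap c r θ - w)⁻¹ ^ 2)))
    (x₀ := w0) (s := ball w0 δ)
    (bound := fun θ => ‖deriv (circleMap c r) θ‖ * (‖u (circleMap c r θ)‖ * (δ⁻¹ ^ 2)))
    (ball_mem_nhds w0 hδ) ?_ ?_ ?_ ?_ ?_ ?_
  · exact key.2.differentiableAt
  · filter_upwards [ball_mem_nhds w0 hδ] with w hw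
    exact (hcd.smul (hcu.mul (hcinv w hw))).aestronglyMeasurable
  · exact (hcd.smul (hcu.mul (hcinv w0 hw0))).intervalIntegrable _ _
  · exact (hcd.smul (hcu.mul ((hcinv w0 hw0).pow 2))).aestronglyMeasurable
  · refine Eventually.of_forall fun θ _ w hw => ?_
    simp only [norm_smul, norm_mul, norm_pow, norm_inv]
    gcongr
    exact hne θ w hw
  · exact (hcd.norm.mul (hcu.norm.mul continuous_const)).intervalIntegrable _ _
  · refine Eventually.of_forall fun θ _ w hw => ?_
    have h1 : HasDerivAt (fun x : ℂ => (circleMap c r θ - x)⁻¹)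
        ((circleMap c r θ - w)⁻¹ ^ 2) w := by
      have h2 : HasDerivAt (fun x : ℂ => circleMap c r θ - x) (-1) w :=
        (hasDerivAt_id' w).const_sub (circleMap c r θ)
      have h3 := h2.inv (hne' θ w hw)
      have h4 : (-(-1 : ℂ)) / (circleMap c r θ - w) ^ 2 = (circleMap c r θ - w)⁻¹ ^ 2 := by
        rw [inv_pow, neg_neg, one_div]
      rw [h4] at h3
      exact h3
    exact (h1.const_mul (u (circleMap c r θ))).const_smul (deriv (circleMap c r) θ)

end Pool.Agent.Lib.MP_7cb37e_an
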