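import Mathlib

set_option autoImplicit false

namespace Pool.Agent.Lib.MP_7cb37e_an

open Filter Topology Metric Set

/-- If power series with uniformly controlled coefficients tend to `0` on a small real interval then
all their coefficients tend to zero. -/
lemma coeff_tendsto {a : ℕ → ℕ → ℂ} {r s M : ℝ} (hr : 0 < r) (hs : 0 < s)
    (ha : ∀ j k, ‖a j k‖ ≤ M / r ^ k)
    (h : ∀ t : ℝ, 0 < t → t < s → Tendsto (fun j => ∑' k, a j k * (t : ℂ) ^ k) atTop (𝓝 0)) :
    ∀ k, Tendsto (fun j => a j k) atTop (𝓝 0) := by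
  have hM : 0 ≤ M := by
    have := (norm_nonneg _).trans (ha 0 0)
    simpa using this
  intro k
  induction k using Nat.strong_induction_on with
  | _ k ih =>
    rw [tendsto_zero_iff_norm_tendsto_zero]
    rw [Metric.tendsto_atTop]
    intro ε hε
    -- choose t
    obtain ⟨t, ht0, hts, htr, htε⟩ : ∃ t : ℝ, 0 < t ∧ t < s ∧ t ≤ r / 2 ∧
        2 * M * t / r ^ (k + 1) < ε / 2 := by
      have h1 : Tendsto (fun t : ℝ => 2 * M * t / r ^ (k + 1)) (𝓝[>] 0) (𝓝 0) := by
        have h2 : Continuous (fun t : ℝ => 2 * M * t / r ^ (k + 1)) := by fun_prop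
        have h3 := h2.tendsto 0
        simp only [mul_zero, zero_div] at h3
        exact h3.mono_left nhdsWithin_le_nhds
      have h4 : ∀ᶠ t in 𝓝[>] (0 : ℝ), 2 * M * t / r ^ (k + 1) < ε / 2 :=
        h1.eventually (gt_mem_nhds (by positivity))
      have h5 : ∀ᶠ t in 𝓝[>] (0 : ℝ), t ∈ Ioo 0 (min s (r / 2)) :=
        Ioo_mem_nhdsGT (lt_min hs (by positivity))
      obtain ⟨t, ht⟩ := (h4.and h5).exists
      exact ⟨t, ht.2.1, ht.2.2.trans_le (min_le_left _ _), (ht.2.2.trans_le (min_le_right _ _)).le,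
        ht.1⟩
    have htr1 : t / r ≤ 1 / 2 := by rw [div_le_iff₀ hr]; linarith
    have htr0 : 0 ≤ t / r := by positivity
    have hbd : ∀ j i, ‖a j i * (t : ℂ) ^ i‖ ≤ M * (t / r) ^ i := by
      intro j i
      rw [norm_mul, norm_pow, Complex.norm_real, Real.norm_of_nonneg ht0.le, div_pow]
      calc ‖a j i‖ * t ^ i ≤ M / r ^ i * t ^ i := by gcongr; exact ha j i
        _ = _ := by ring
    have hgeo : Summable (fun i : ℕ => M * (t / r) ^ i) :=
      (summable_geometric_of_lt_one htr0 (by linarith)).mul_left M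
    have hsum : ∀ j, Summable (fun i => a j i * (t : ℂ) ^ i) := fun j =>
      Summable.of_norm_bounded hgeo (hbd j)
    -- the tail
    have htail : ∀ j, ‖∑' i, a j (i + (k + 1)) * (t : ℂ) ^ (i + (k + 1))‖ ≤
        2 * M * (t / r) ^ (k + 1) := by
      intro j
      have h6 : Summable (fun i : ℕ => M * (t / r) ^ (i + (k + 1))) :=
        (summable_nat_add_iff (f := fun i : ℕ => M * (t / r) ^ i) (k + 1)).2 hgeo
      have h7 : ‖∑' i, a j (i + (k + 1)) * (t : ℂ) ^ (i + (k + 1))‖ ≤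
          ∑' i : ℕ, M * (t / r) ^ (i + (k + 1)) :=
        tsum_of_norm_bounded h6.hasSum (fun i => hbd j (i + (k + 1)))
      refine h7.trans ?_
      have h8 : ∑' i : ℕ, M * (t / r) ^ (i + (k + 1)) = M * (t / r) ^ (k + 1) * (1 - t / r)⁻¹ := by
        rw [← tsum_geometric_of_lt_one htr0 (by linarith), ← tsum_mul_left]
        congr 1
        funext i
        ring
      rw [h8]
      have h9 : (1 - t / r)⁻¹ ≤ 2 := by
        rw [inv_le_comm₀ (by linarith) (by norm_num)]
        linarith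
      calc M * (t / r) ^ (k + 1) * (1 - t / r)⁻¹ ≤ M * (t / r) ^ (k + 1) * 2 := by gcongr
        _ = _ := by ring
    -- the main estimate
    have hmain : ∀ j, ‖a j k‖ ≤ (‖∑' i, a j i * (t : ℂ) ^ i‖ +
        ∑ i ∈ Finset.range k, ‖a j i‖ * t ^ i) / t ^ k + 2 * M * t / r ^ (k + 1) := by
      intro j
      have h10 := (hsum j).sum_add_tsum_nat_add (k + 1)
      rw [Finset.sum_range_succ] at h10
      have h11 : a j k * (t : ℂ) ^ k = (∑' i, a j i * (t : ℂ) ^ i)
          - ∑ i ∈ Finset.range k, a j i * (t : ℂ) ^ i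
          - ∑' i, a j (i + (k + 1)) * (t : ℂ) ^ (i + (k + 1)) := by
        rw [← h10]; ring
      have h12 : ‖a j k‖ * t ^ k ≤ ‖∑' i, a j i * (t : ℂ) ^ i‖
          + ∑ i ∈ Finset.range k, ‖a j i‖ * t ^ i + 2 * M * (t / r) ^ (k + 1) := by
        calc ‖a j k‖ * t ^ k = ‖a j k * (t : ℂ) ^ k‖ := by
              rw [norm_mul, norm_pow, Complex.norm_real, Real.norm_of_nonneg ht0.le]
          _ ≤ ‖∑' i, a j i * (t : ℂ) ^ i‖ + ‖∑ i ∈ Finset.range k, a j i * (t : ℂ) ^ i‖
              + ‖∑' i, a j (i + (k + 1)) * (t : ℂ) ^ (i + (k + 1))‖ := by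
              rw [h11]
              exact (norm_sub_le _ _).trans (add_le_add (norm_sub_le _ _) le_rfl)
          _ ≤ _ := by
              gcongr
              · refine (norm_sum_le _ _).trans (Finset.sum_le_sum fun i _ => ?_)
                rw [norm_mul, norm_pow, Complex.norm_real, Real.norm_of_nonneg ht0.le]
              · exact htail j
      have htk : 0 < t ^ k := by positivity
      have h13 : ‖a j k‖ = ‖a j k‖ * t ^ k / t ^ k := by field_simp
      rw [h13]
      calc ‖a j k‖ * t ^ k / t ^ k ≤ (‖∑' i, a j i * (t : ℂ) ^ i‖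
          + ∑ i ∈ Finset.range k, ‖a j i‖ * t ^ i + 2 * M * (t / r) ^ (k + 1)) / t ^ k := by
            gcongr
        _ = _ := by
            rw [add_div, div_pow]
            congr 1
            field_simp
            ring
    -- the limit of the first part
    have hlim : Tendsto (fun j => (‖∑' i, a j i * (t : ℂ) ^ i‖ +
        ∑ i ∈ Finset.range k, ‖a j i‖ * t ^ i) / t ^ k) atTop (𝓝 0) := by
      have h14 : Tendsto (fun j => (‖∑' i, a j i * (t : ℂ) ^ i‖ +
        ∑ i ∈ Finset.range k, ‖a j i‖ * t ^ i) / t ^ k) atTop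
          (𝓝 ((‖(0 : ℂ)‖ + ∑ i ∈ Finset.range k, ‖(0 : ℂ)‖ * t ^ i) / t ^ k)) := by
        apply Tendsto.div_const
        apply Tendsto.add (h t ht0 hts).norm
        apply tendsto_finsetSum
        intro i hi
        exact ((ih i (Finset.mem_range.1 hi)).norm).mul_const _
      simpa using h14
    have hev : ∀ᶠ j in atTop, (‖∑' i, a j i * (t : ℂ) ^ i‖ +
        ∑ i ∈ Finset.range k, ‖a j i‖ * t ^ i) / t ^ k < ε / 2 :=
      hlim.eventually (gt_mem_nhds (by positivity))
    obtain ⟨N, hN⟩ := eventually_atTop.1 hev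
    refine ⟨N, fun j hj => ?_⟩
    rw [Real.dist_eq, sub_zero, abs_of_nonneg (norm_nonneg _)]
    have := hN j hj
    have := hmain j
    linarith

/-- A Vitali type statement: uniformly bounded holomorphic functions on a ball that tend to zero on a
short segment starting at the centre tend to zero on the ball. -/
lemma vitali {g : ℕ → ℂ → ℂ} {c : ℂ} {τ s M : ℝ} (hs : 0 < s)
    (hd : ∀ j, DifferentiableOn ℂ (g j) (ball c τ)) (hM : ∀ j, ∀ w ∈ ball c τ, ‖g j w‖ ≤ M)
    (h : ∀ t : ℝ, 0 < t → t < s → Tendsto (fun j => g j (c + t)) atTop (𝓝 0)) :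
    ∀ w ∈ ball c τ, Tendsto (fun j => g j w) atTop (𝓝 0) := by
  intro w hw
  have hw' : ‖w - c‖ < τ := by simpa [dist_eq_norm] using hw
  obtain ⟨r, hwr, hrτ⟩ := exists_between hw'
  have hr : 0 < r := (norm_nonneg _).trans_lt hwr
  set a : ℕ → ℕ → ℂ := fun j k => ((k.factorial : ℂ))⁻¹ * iteratedDeriv k (g j) c with ha
  have hbd : ∀ j k, ‖a j k‖ ≤ M / r ^ k := by
    intro j k
    have hsub : closedBall c r ⊆ ball c τ := closedBall_subset_ball hrτ
    have h1 : DiffContOnCl ℂ (g j) (ball c r) := by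
      apply DifferentiableOn.diffContOnCl
      rw [closure_ball c hr.ne']
      exact (hd j).mono hsub
    have h2 := Complex.norm_iteratedDeriv_le_of_forall_mem_sphere_norm_le k hr h1
      (fun z hz => hM j z (hsub (sphere_subset_closedBall hz)))
    rw [ha]
    simp only [norm_mul, norm_inv, Complex.norm_natCast]
    have hk : (0 : ℝ) < k.factorial := by positivity
    calc (k.factorial : ℝ)⁻¹ * ‖iteratedDeriv k (g j) c‖
        ≤ (k.factorial : ℝ)⁻¹ * (k.factorial * M / r ^ k) := by gcongr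
      _ = M / r ^ k := by field_simp
  have hsumg : ∀ j, ∀ z ∈ ball c τ, HasSum (fun k => a j k * (z - c) ^ k) (g j z) := by
    intro j z hz
    have := Complex.hasSum_taylorSeries_on_ball (hd j) hz
    have h0 : (fun k => a j k * (z - c) ^ k) =
        fun k => ((k.factorial : ℂ))⁻¹ • (z - c) ^ k • iteratedDeriv k (g j) c := by
      funext k
      simp only [ha, smul_eq_mul]
      ring
    rw [h0]
    exact this
  have hcoeff : ∀ k, Tendsto (fun j => a j k) atTop (𝓝 0) := by
    apply coeff_tendsto hr (s := min s τ) (lt_min hs ((norm_nonneg _).trans_lt hw')) hbd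
    intro t ht0 hts
    have h3 := h t ht0 (hts.trans_le (min_le_left _ _))
    refine h3.congr fun j => ?_
    have hz : c + (t : ℂ) ∈ ball c τ := by
      rw [mem_ball, dist_eq_norm, add_sub_cancel_left, Complex.norm_real,
        Real.norm_of_nonneg ht0.le]
      exact hts.trans_le (min_le_right _ _)
    have h4 := hsumg j _ hz
    simp only [add_sub_cancel_left] at h4
    exact h4.tsum_eq.symm
  have h5 : Tendsto (fun j => ∑' k, a j k * (w - c) ^ k) atTop (𝓝 (∑' k : ℕ, (0 : ℂ))) := by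
    apply tendsto_tsum_of_dominated_convergence (bound := fun k => M * (‖w - c‖ / r) ^ k)
    · apply Summable.mul_left
      apply summable_geometric_of_lt_one (by positivity)
      rw [div_lt_one hr]
      exact hwr
    · intro k
      have := (hcoeff k).mul_const ((w - c) ^ k)
      simpa using this
    · refine Eventually.of_forall fun j k => ?_
      rw [norm_mul, norm_pow, div_pow]
      calc ‖a j k‖ * ‖w - c‖ ^ k ≤ M / r ^ k * ‖w - c‖ ^ k := by gcongr; exact hbd j k
        _ = _ := by ring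
  simp only [tsum_zero] at h5
  refine h5.congr fun j => ?_
  exact (hsumg j w hw).tsum_eq

/-- The `τ`-neighbourhood of the real segment `[0,2]`. -/
def Nb (τ : ℝ) : Set ℂ := ⋃ t ∈ Icc (0 : ℝ) 2, ball (t : ℂ) τ

lemma prop_seq {g : ℕ → ℂ → ℂ} {τ M : ℝ} (hτ : 0 < τ) (hτ1 : τ ≤ 1)
    (hd : ∀ j, DifferentiableOn ℂ (g j) (Nb τ)) (hM : ∀ j, ∀ w ∈ Nb τ, ‖g j w‖ ≤ M)
    (h : ∀ t : ℝ, 0 ≤ t → t ≤ 1 → Tendsto (fun j => g j (t : ℂ)) atTop (𝓝 0)) :
    Tendsto (fun j => g j 2) atTop (𝓝 0) := by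
  -- convergence on [0, 1 + kτ/4] ∩ [0,2]
  have key : ∀ k : ℕ, ∀ t : ℝ, 0 ≤ t → t ≤ 2 → t ≤ 1 + k * (τ / 4) →
      Tendsto (fun j => g j (t : ℂ)) atTop (𝓝 0) := by
    intro k
    induction k with
    | zero =>
      intro t h0 _ h1
      exact h t h0 (by simpa using h1)
    | succ k ih =>
      intro t h0 h2 h1
      by_cases ht1 : t ≤ 1
      · exact h t h0 ht1
      push Not at ht1
      by_cases ht : t ≤ 1 + k * (τ / 4)
      · exact ih t h0 h2 ht
      push Not at ht
      push_cast at h1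
      -- centre c = t - τ/2
      set c : ℝ := t - τ / 2 with hc
      have hc0 : 0 ≤ c := by rw [hc]; linarith
      have hc2 : c ≤ 2 := by rw [hc]; linarith
      have hsub : ball (c : ℂ) τ ⊆ Nb τ := by
        intro z hz
        simp only [Nb, mem_iUnion]
        exact ⟨c, ⟨hc0, hc2⟩, hz⟩
      have hv := vitali (g := g) (c := (c : ℂ)) (τ := τ) (s := τ / 4) (M := M) (by positivity)
        (fun j => (hd j).mono hsub) (fun j w hw => hM j w (hsub hw))
        (by
          intro u hu0 hu1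
          have h3 := ih (c + u) (by linarith) (by rw [hc]; linarith) (by rw [hc]; linarith)
          simpa using h3)
      apply hv
      rw [mem_ball, dist_eq_norm, ← Complex.ofReal_sub, Complex.norm_real, hc]
      rw [Real.norm_of_nonneg (by linarith)]
      linarith
  obtain ⟨k, hk⟩ := exists_nat_gt (1 / (τ / 4))
  have h4 : 1 < k * (τ / 4) := by
    rw [div_lt_iff₀ (by positivity)] at hk
    exact hk
  have := key k 2 (by norm_num) le_rfl (by linarith)
  simpa using this

/-- Propagation of smallness. -/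
lemma propagation (τ M η : ℝ) (hτ : 0 < τ) (hτ1 : τ ≤ 1) (hη : 0 < η) :
    ∃ ε : ℝ, 0 < ε ∧ ∀ g : ℂ → ℂ, DifferentiableOn ℂ g (Nb τ) → (∀ w ∈ Nb τ, ‖g w‖ ≤ M) →
      (∀ t : ℝ, 0 ≤ t → t ≤ 1 → ‖g (t : ℂ)‖ ≤ ε) → ‖g 2‖ ≤ η := by
  by_contra hcon
  push Not at hcon
  have h1 : ∀ j : ℕ, ∃ g : ℂ → ℂ, DifferentiableOn ℂ g (Nb τ) ∧ (∀ w ∈ Nb τ, ‖g w‖ ≤ M) ∧
      (∀ t : ℝ, 0 ≤ t → t ≤ 1 → ‖g (t : ℂ)‖ ≤ 1 / ((j : ℝ) + 1)) ∧ η < ‖g 2‖ := by
    intro j
    exact hcon (1 / ((j : ℝ) + 1)) (by positivity)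
  choose g hg1 hg2 hg3 hg4 using h1
  have h2 : Tendsto (fun j => g j 2) atTop (𝓝 0) := by
    apply prop_seq hτ hτ1 hg1 hg2
    intro t ht0 ht1
    rw [tendsto_zero_iff_norm_tendsto_zero]
    exact squeeze_zero (fun j => norm_nonneg _) (fun j => hg3 j t ht0 ht1)
      tendsto_one_div_add_atTop_nhds_zero_nat
  have h3 : ∀ᶠ j in atTop, ‖g j 2‖ < η := by
    have := (tendsto_zero_iff_norm_tendsto_zero.1 h2)
    exact this.eventually (gt_mem_nhds hη)
  obtain ⟨j, hj⟩ := h3.exists
  exact lt_irrefl _ (hj.trans (hg4 j))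

end Pool.Agent.Lib.MP_7cb37e_an
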