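import Pool.Agent.Lib.MP_7cb37e_an.Cost
import Pool.Agent.Lib.MP_7cb37e_an.Propagate
import Pool.Agent.Lib.MP_7cb37e_an.Param

set_option autoImplicit false

namespace Pool.Agent.Lib.MP_7cb37e_an

open Complex Metric Set

variable {L : ℕ → ℕ} {η : ℕ → ℝ}

lemma sum_discs (h : Basic L η) {E : Type*} [AddCommMonoid E] (F : ℂ × ℝ → E) (n k : ℕ) :
    ∑ d ∈ discs L η (n + k), F d = ∑ d ∈ discs L η n, F d +
      ∑ i ∈ Finset.range k, ∑ d ∈ newD (L (n + i)) (rho L η (n + i)) (discs L η (n + i)), F d := by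
  induction k with
  | zero => simp
  | succ k ih =>
    rw [← Nat.add_assoc, discs_succ, Finset.sum_union (newD_disjoint h (n + k)), ih,
      Finset.sum_range_succ, add_assoc]

lemma sum_newD (h : Basic L η) {E : Type*} [AddCommMonoid E] (F : ℂ × ℝ → E) (n : ℕ) :
    ∑ d ∈ newD (L n) (rho L η n) (discs L η n), F d =
      ∑ p ∈ kept (L n) (discs L η n), F (ctr (L n) p, rho L η n) := by
  classical
  unfold newD
  rw [Finset.sum_image]
  intro a _ b _ hab
  exact ctr_injective (h.Lpos n) (congrArg Prod.fst hab)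

lemma J_split (h : Basic L η) (n k : ℕ) (u : ℂ → ℂ) :
    J (discs L η (n + k)) u = J (discs L η n) u -
      ∑ i ∈ Finset.range k, ∑ d ∈ newD (L (n + i)) (rho L η (n + i)) (discs L η (n + i)),
        ∮ z in C(d.1, d.2), u z := by
  unfold J
  rw [sum_discs h (fun d => ∮ z in C(d.1, d.2), u z) n k]
  ring

lemma sum_eta (hpos : ∀ n, 0 < η n) (hhalf : ∀ n, η (n + 1) ≤ η n / 2) (n k : ℕ) :
    ∑ i ∈ Finset.range k, η (n + i) ≤ 2 * η n := by
  have h : ∀ k n : ℕ, ∑ i ∈ Finset.range k, η (n + i) ≤ 2 * η n := by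
    intro k
    induction k with
    | zero => intro n; simpa using (hpos n).le
    | succ k ih =>
      intro n
      rw [Finset.sum_range_succ']
      have h1 := ih (n + 1)
      have h2 := hhalf n
      have h3 : ∑ i ∈ Finset.range k, η (n + (i + 1)) = ∑ i ∈ Finset.range k, η (n + 1 + i) := by
        apply Finset.sum_congr rfl
        intro i _
        congr 1
        ring
      rw [h3]
      simp only [add_zero]
      linarith
  exact h k n

lemma card_box (L : ℕ) : ((box L).card : ℝ) = 36 * (L : ℝ) ^ 2 := by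
  unfold box
  rw [Finset.card_product, Int.card_Ico]
  have : (3 * (L : ℤ) - -(3 * (L : ℤ))).toNat = 6 * L := by omega
  rw [this]
  push_cast
  ring

lemma sum_radius (h : Basic L η) (hhalf : ∀ n, η (n + 1) ≤ η n / 2) (n : ℕ) :
    ∑ d ∈ discs L η n, d.2 ≤ 9 := by
  have h1 := sum_discs h (fun d : ℂ × ℝ => d.2) 0 n
  have h0 : discs L η 0 = ∅ := rfl
  rw [h0, Finset.sum_empty, zero_add, zero_add] at h1
  rw [h1]
  have h2 : ∀ i ∈ Finset.range n,
      ∑ d ∈ newD (L (0 + i)) (rho L η (0 + i)) (discs L η (0 + i)), d.2 ≤ 36 * η (0 + i) := by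
    intro i _
    rw [sum_newD h (fun d : ℂ × ℝ => d.2)]
    simp only
    rw [Finset.sum_const, nsmul_eq_mul]
    have h3 : ((kept (L (0 + i)) (discs L η (0 + i))).card : ℝ) ≤ 36 * (L (0 + i) : ℝ) ^ 2 := by
      rw [← card_box]
      exact_mod_cast Finset.card_le_card kept_subset_box
    have h4 := h.rho_pos (0 + i)
    have hL := h.L0 (0 + i)
    calc ((kept (L (0 + i)) (discs L η (0 + i))).card : ℝ) * rho L η (0 + i)
        ≤ (36 * (L (0 + i) : ℝ) ^ 2) * rho L η (0 + i) := by gcongr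
      _ = 36 * η (0 + i) := by
        unfold rho
        field_simp
  calc ∑ i ∈ Finset.range n, ∑ d ∈ newD (L (0 + i)) (rho L η (0 + i)) (discs L η (0 + i)), d.2
      ≤ ∑ i ∈ Finset.range n, 36 * η (0 + i) := Finset.sum_le_sum h2
    _ = 36 * ∑ i ∈ Finset.range n, η (0 + i) := by rw [Finset.mul_sum]
    _ ≤ 36 * (2 * η 0) := by gcongr; exact sum_eta h.ηpos hhalf 0 n
    _ ≤ 9 := by linarith [h.ηle 0]

/-- the contribution of one stage at a point of the segment -/
lemma stage_bound (h : Basic L η) (m : ℕ) {f : ℂ → ℂ} {B : ℝ} (hB0 : 0 ≤ B)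
    (hB : ∀ z ∈ XX L η, ‖f z‖ ≤ B) {x : ℝ} (h0 : 0 ≤ x) (h2 : x ≤ 2) :
    ‖∑ d ∈ newD (L m) (rho L η m) (discs L η m), ∮ z in C(d.1, d.2), f z * (z - x)⁻¹‖ ≤
      2 * Real.pi * (640 * η m * B) := by
  refine (norm_sum_le _ _).trans ?_
  rw [sum_newD h (fun d : ℂ × ℝ => ‖∮ z in C(d.1, d.2), f z * (z - x)⁻¹‖)]
  simp only
  have hL := h.L0 m
  have hρ := h.rho_pos m
  have h1 : ∀ p ∈ kept (L m) (discs L η m),
      ‖∮ z in C(ctr (L m) p, rho L η m), f z * (z - x)⁻¹‖ ≤
        2 * Real.pi * rho L η m * (B * (2 * (1 / dist (x : ℂ) (ctr (L m) p)))) := by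
    intro p hp
    apply circleIntegral.norm_integral_le_of_norm_le_const hρ.le
    intro z hz
    have hzX : z ∈ XX L η := by
      apply Gam_subset_XX h (m + 1)
      right
      simp only [mem_iUnion]
      refine ⟨(ctr (L m) p, rho L η m), ?_, hz⟩
      rw [discs_succ, Finset.mem_union]
      exact Or.inr (mem_newD.2 ⟨p, hp, rfl⟩)
    have hz' : dist z (ctr (L m) p) = rho L η m := hz
    have h3 : 1 / (2 * (L m : ℝ)) ≤ dist (x : ℂ) (ctr (L m) p) := by
      refine (ctr_im_ge (h.Lpos m) p).trans ?_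
      rw [dist_comm, dist_eq_norm]
      have := Complex.abs_im_le_norm (ctr (L m) p - x)
      simpa using this
    have h4 := h.rho_le m
    have h5 : 1 / (8 * (L m : ℝ)) = (1 / 4) * (1 / (2 * (L m : ℝ))) := by field_simp; norm_num
    have hd0 : 0 < dist (x : ℂ) (ctr (L m) p) := lt_of_lt_of_le (by positivity) h3
    have h6 : dist (x : ℂ) (ctr (L m) p) / 2 ≤ ‖z - x‖ := by
      have h7 : dist (x : ℂ) (ctr (L m) p) ≤ dist z x + dist z (ctr (L m) p) := by
        rw [dist_comm z x]; exact dist_triangle _ _ _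
      rw [dist_eq_norm z x] at h7
      linarith
    rw [norm_mul, norm_inv]
    apply mul_le_mul (hB z hzX) _ (by positivity) hB0
    calc ‖z - ↑x‖⁻¹ ≤ (dist (x : ℂ) (ctr (L m) p) / 2)⁻¹ := by
          apply inv_anti₀ (by positivity) h6
      _ = 2 * (1 / dist (x : ℂ) (ctr (L m) p)) := by field_simp
  refine (Finset.sum_le_sum h1).trans ?_
  calc ∑ p ∈ kept (L m) (discs L η m),
        2 * Real.pi * rho L η m * (B * (2 * (1 / dist (x : ℂ) (ctr (L m) p))))
      ≤ ∑ p ∈ box (L m),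
        2 * Real.pi * rho L η m * (B * (2 * (1 / dist (x : ℂ) (ctr (L m) p)))) := by
        apply Finset.sum_le_sum_of_subset_of_nonneg kept_subset_box
        intro i _ _
        have := Real.pi_pos
        positivity
    _ = 4 * Real.pi * rho L η m * B * ∑ p ∈ box (L m), 1 / dist (x : ℂ) (ctr (L m) p) := by
        rw [Finset.mul_sum]
        apply Finset.sum_congr rfl
        intro p _
        ring
    _ ≤ 4 * Real.pi * rho L η m * B * (320 * (L m : ℝ) ^ 2) := by
        have := Real.pi_pos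
        gcongr
        exact cost (h.Lpos m) x h0 h2
    _ = 2 * Real.pi * (640 * η m * B) := by
        unfold rho
        field_simp
        ring

/-- every polynomial without zeros on `XX` has no zeros on some finite stage -/
lemma exists_stage (h : Basic L η) (q : Polynomial ℂ) (hq : ∀ z ∈ XX L η, q.eval z ≠ 0) :
    ∃ N : ℕ, ∀ z ∈ XD (discs L η N), q.eval z ≠ 0 := by
  have hq0 : q ≠ 0 := by
    rintro rfl
    have := seg_mem_XX h (t := 0) le_rfl (by norm_num)
    exact hq _ this (by simp)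
  have h1 : ∀ x ∈ q.roots.toFinset, ∃ n, x ∉ XD (discs L η n) := by
    intro x hx
    rw [Multiset.mem_toFinset] at hx
    have hx0 : q.eval x = 0 := by simpa using (Polynomial.mem_roots hq0).1 hx
    have hxX : x ∉ XX L η := fun hX => hq x hX hx0
    by_contra hcon
    push Not at hcon
    apply hxX
    refine ⟨(hcon 0).1, ?_⟩
    intro h2
    obtain ⟨n, hn⟩ := mem_iUnion.1 h2
    exact (hcon n).2 hn
  choose! n hn using h1
  refine ⟨q.roots.toFinset.sup n, fun z hz hz0 => ?_⟩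
  have hzr : z ∈ q.roots.toFinset := by
    rw [Multiset.mem_toFinset]
    exact (Polynomial.mem_roots hq0).2 hz0
  apply hn z hzr
  exact XD_anti (discs_mono (Finset.le_sup (f := n) hzr)) hz

lemma Nb_norm {τ : ℝ} {w : ℂ} (hw : w ∈ Nb τ) : ‖w‖ ≤ 2 + τ ∧ |w.im| ≤ τ := by
  simp only [Nb, mem_iUnion] at hw
  obtain ⟨t, ht, hwt⟩ := hw
  have h1 : ‖w - t‖ < τ := by simpa [dist_eq_norm] using hwt
  constructor
  · have h2 : ‖w‖ ≤ ‖w - t‖ + ‖(t : ℂ)‖ := by
      have := norm_add_le (w - t) (t : ℂ)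
      simpa using this
    have h3 : ‖(t : ℂ)‖ ≤ 2 := by
      rw [Complex.norm_real, Real.norm_of_nonneg ht.1]
      exact ht.2
    linarith
  · have h2 := Complex.abs_im_le_norm (w - t)
    simp only [Complex.sub_im, Complex.ofReal_im, sub_zero] at h2
    linarith

/-- distance from the circles of the stages `≤ n` to the neighbourhood of the segment -/
lemma circle_dist (h : Basic L η) (n : ℕ) {d : ℂ × ℝ} (hd : d ∈ discs L η (n + 1)) {z w : ℂ}
    (hz : z ∈ sphere d.1 d.2) (hw : |w.im| ≤ 1 / (8 * (L n : ℝ))) :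
    1 / (4 * (L n : ℝ)) ≤ ‖z - w‖ := by
  obtain ⟨m, hm, hmd⟩ := mem_discs hd
  obtain ⟨h1, -, h3⟩ := disc_data h hmd
  have hz' : dist z d.1 = d.2 := hz
  have h4 := h.rho_le m
  have hLm := h.L0 m
  have hLn := h.L0 n
  have hmn : (L m : ℝ) ≤ L n := by exact_mod_cast h.Lmono' (by omega : m ≤ n)
  have h5 : |d.1.im| ≤ |z.im| + dist z d.1 := by
    have h6 := Complex.abs_im_le_norm (z - d.1)
    rw [dist_eq_norm]
    have h7 : |d.1.im| ≤ |z.im| + |(z - d.1).im| := by
      have := abs_sub (z.im) ((z - d.1).im)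
      have h8 : z.im - (z - d.1).im = d.1.im := by simp
      rw [h8] at this
      exact this
    linarith
  have h9 : |z.im| ≤ ‖z - w‖ + |w.im| := by
    have h6 := Complex.abs_im_le_norm (z - w)
    have h7 : |z.im| ≤ |(z - w).im| + |w.im| := by
      have := abs_add_le ((z - w).im) (w.im)
      have h8 : (z - w).im + w.im = z.im := by simp
      rw [h8] at this
      exact this
    linarith
  have h10 : 3 / 8 * (1 / (L m : ℝ)) ≤ |z.im| := by
    have e1 : 1 / (2 * (L m : ℝ)) = (1 / 2) * (1 / (L m : ℝ)) := by field_simp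
    have e2 : 1 / (8 * (L m : ℝ)) = (1 / 8) * (1 / (L m : ℝ)) := by field_simp
    rw [e1] at h3
    rw [e2] at h4
    rw [hz', h1] at h5
    linarith
  have h11 : 1 / (L n : ℝ) ≤ 1 / (L m : ℝ) := one_div_le_one_div_of_le hLm hmn
  have e3 : 1 / (8 * (L n : ℝ)) = (1 / 8) * (1 / (L n : ℝ)) := by field_simp
  have e4 : 1 / (4 * (L n : ℝ)) = (1 / 4) * (1 / (L n : ℝ)) := by field_simp
  rw [e3] at hw
  rw [e4]
  linarith

lemma outer_dist (h : Basic L η) (n : ℕ) {z w : ℂ} (hz : z ∈ sphere (0 : ℂ) 3)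
    (hw : ‖w‖ ≤ 2 + 1 / (8 * (L n : ℝ))) : 7 / 8 ≤ ‖z - w‖ := by
  have h1 : ‖z‖ = 3 := by simpa using hz
  have hL1 := h.L1 n
  have h2 : 1 / (8 * (L n : ℝ)) ≤ 1 / 8 := by
    apply one_div_le_one_div_of_le (by norm_num)
    linarith
  have h3 : ‖z‖ - ‖w‖ ≤ ‖z - w‖ := norm_sub_norm_le z w
  linarith

/-- Main approximation lemma. -/
lemma rational_approx (h : Basic L η) (hhalf : ∀ n, η (n + 1) ≤ η n / 2) (n : ℕ)
    (p q : Polynomial ℂ) (hq : ∀ z ∈ XX L η, q.eval z ≠ 0) {B : ℝ} (hB0 : 0 ≤ B)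
    (hB : ∀ z ∈ XX L η, ‖p.eval z / q.eval z‖ ≤ B) :
    ∃ g : ℂ → ℂ, DifferentiableOn ℂ g (Nb (1 / (8 * (L n : ℝ)))) ∧
      (∀ w ∈ Nb (1 / (8 * (L n : ℝ))), ‖g w‖ ≤ 100 * (L n : ℝ) * B) ∧
      (∀ t : ℝ, 0 ≤ t → t ≤ 2 →
        ‖p.eval (t : ℂ) / q.eval (t : ℂ) - g t‖ ≤ 1280 * η (n + 1) * B) := by
  set f : ℂ → ℂ := fun z => p.eval z / q.eval z with hf
  have hfc : ContinuousOn f (Gam (discs L η (n + 1))) := by
    apply ContinuousOn.div (by fun_prop) (by fun_prop)
    intro z hz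
    exact hq z (Gam_subset_XX h (n + 1) hz)
  have hfB : ∀ z ∈ Gam (discs L η (n + 1)), ‖f z‖ ≤ B := fun z hz =>
    hB z (Gam_subset_XX h (n + 1) hz)
  have hpi := Real.pi_pos
  have hL := h.L0 n
  have hgood := good_discs h (n + 1)
  have hnorm2pi : ‖(2 * Real.pi * I : ℂ)⁻¹‖ = (2 * Real.pi)⁻¹ := by
    simp [abs_of_pos hpi]
  refine ⟨fun w => (2 * Real.pi * I : ℂ)⁻¹ * J (discs L η (n + 1)) (fun z => f z * (z - w)⁻¹),
    ?_, ?_, ?_⟩
  · -- differentiability
    intro w hw
    obtain ⟨hw1, hw2⟩ := Nb_norm hw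
    apply DifferentiableAt.differentiableWithinAt
    apply DifferentiableAt.const_mul
    unfold J
    apply DifferentiableAt.fun_sub
    · apply diff_cauchy (δ := 7 / 16) (by norm_num) (hfc.mono subset_union_left) (by norm_num)
      intro z hz
      rw [dist_eq_norm]
      have := outer_dist h n hz hw1
      linarith
    · apply DifferentiableAt.fun_sum
      intro d hd
      apply diff_cauchy (δ := 1 / (8 * (L n : ℝ))) (hgood.pos d hd).le
        (hfc.mono (sphere_subset_Gam hd)) (by positivity)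
      intro z hz
      rw [dist_eq_norm]
      have := circle_dist h n hd hz hw2
      have e : 2 * (1 / (8 * (L n : ℝ))) = 1 / (4 * (L n : ℝ)) := by field_simp; norm_num
      rw [e]
      exact this
  · -- bound
    intro w hw
    obtain ⟨hw1, hw2⟩ := Nb_norm hw
    rw [norm_mul, hnorm2pi]
    have h1 : ‖∮ z in C(0, 3), f z * (z - w)⁻¹‖ ≤ 2 * Real.pi * 3 * (B * (8 / 7)) := by
      apply circleIntegral.norm_integral_le_of_norm_le_const (by norm_num)
      intro z hz
      rw [norm_mul, norm_inv]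
      apply mul_le_mul (hfB z (Or.inl hz)) _ (by positivity) hB0
      have := outer_dist h n hz hw1
      calc ‖z - w‖⁻¹ ≤ (7 / 8 : ℝ)⁻¹ := inv_anti₀ (by norm_num) this
        _ = 8 / 7 := by norm_num
    have h2 : ‖∑ d ∈ discs L η (n + 1), ∮ z in C(d.1, d.2), f z * (z - w)⁻¹‖ ≤
        2 * Real.pi * 9 * (B * (4 * (L n : ℝ))) := by
      refine (norm_sum_le _ _).trans ?_
      calc ∑ d ∈ discs L η (n + 1), ‖∮ z in C(d.1, d.2), f z * (z - w)⁻¹‖
          ≤ ∑ d ∈ discs L η (n + 1), 2 * Real.pi * d.2 * (B * (4 * (L n : ℝ))) := by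
            apply Finset.sum_le_sum
            intro d hd
            apply circleIntegral.norm_integral_le_of_norm_le_const (hgood.pos d hd).le
            intro z hz
            rw [norm_mul, norm_inv]
            apply mul_le_mul (hfB z (sphere_subset_Gam hd hz)) _ (by positivity) hB0
            have := circle_dist h n hd hz hw2
            calc ‖z - w‖⁻¹ ≤ (1 / (4 * (L n : ℝ)))⁻¹ := inv_anti₀ (by positivity) this
              _ = 4 * (L n : ℝ) := by simp
        _ = 2 * Real.pi * (∑ d ∈ discs L η (n + 1), d.2) * (B * (4 * (L n : ℝ))) := by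
            rw [Finset.mul_sum, Finset.sum_mul]
        _ ≤ 2 * Real.pi * 9 * (B * (4 * (L n : ℝ))) := by
            gcongr
            exact sum_radius h hhalf (n + 1)
    have h3 : ‖J (discs L η (n + 1)) (fun z => f z * (z - w)⁻¹)‖ ≤
        2 * Real.pi * 3 * (B * (8 / 7)) + 2 * Real.pi * 9 * (B * (4 * (L n : ℝ))) := by
      unfold J
      exact (norm_sub_le _ _).trans (add_le_add h1 h2)
    calc (2 * Real.pi)⁻¹ * ‖J (discs L η (n + 1)) (fun z => f z * (z - w)⁻¹)‖
        ≤ (2 * Real.pi)⁻¹ * (2 * Real.pi * 3 * (B * (8 / 7)) +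
          2 * Real.pi * 9 * (B * (4 * (L n : ℝ)))) := by gcongr
      _ = 24 / 7 * B + 36 * (L n : ℝ) * B := by field_simp; ring
      _ ≤ 100 * (L n : ℝ) * B := by
        have hL1 := h.L1 n
        nlinarith [mul_nonneg hB0 (by linarith : (0 : ℝ) ≤ (L n : ℝ) - 1)]
  · -- approximation on the segment
    intro t h0 h2
    obtain ⟨N, hN⟩ := exists_stage h q hq
    have hN' : ∀ z ∈ XD (discs L η (n + 1 + N)), q.eval z ≠ 0 := fun z hz =>
      hN z (XD_anti (discs_mono (by omega)) hz)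
    have h4 := cauchy_rational (good_discs h (n + 1 + N)) p q hN'
      (seg_mem_XDo h (n + 1 + N) h0 h2)
    have h5 : p.eval (t : ℂ) / q.eval (t : ℂ) = (2 * Real.pi * I : ℂ)⁻¹ *
        J (discs L η (n + 1 + N)) (fun z => f z * (z - t)⁻¹) := by
      rw [hf]
      simp only
      rw [h4]
      have : (2 * Real.pi * I : ℂ) ≠ 0 := by
        simp [hpi.ne']
      field_simp
    rw [h5, J_split h (n + 1) N, mul_sub, sub_sub_cancel_left, norm_neg, norm_mul, hnorm2pi]
    have h6 : ‖∑ i ∈ Finset.range N, ∑ d ∈ newD (L (n + 1 + i)) (rho L η (n + 1 + i))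
        (discs L η (n + 1 + i)), ∮ z in C(d.1, d.2), f z * (z - t)⁻¹‖ ≤
        2 * Real.pi * (1280 * η (n + 1) * B) := by
      refine (norm_sum_le _ _).trans ?_
      calc ∑ i ∈ Finset.range N, ‖∑ d ∈ newD (L (n + 1 + i)) (rho L η (n + 1 + i))
            (discs L η (n + 1 + i)), ∮ z in C(d.1, d.2), f z * (z - t)⁻¹‖
          ≤ ∑ i ∈ Finset.range N, 2 * Real.pi * (640 * η (n + 1 + i) * B) :=
            Finset.sum_le_sum fun i _ => stage_bound h (n + 1 + i) hB0 hB h0 h2
        _ = 2 * Real.pi * 640 * B * ∑ i ∈ Finset.range N, η (n + 1 + i) := by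
            rw [Finset.mul_sum]
            apply Finset.sum_congr rfl
            intro i _
            ring
        _ ≤ 2 * Real.pi * 640 * B * (2 * η (n + 1)) := by
            gcongr
            exact sum_eta h.ηpos hhalf (n + 1) N
        _ = _ := by ring
    calc (2 * Real.pi)⁻¹ * ‖∑ i ∈ Finset.range N, ∑ d ∈ newD (L (n + 1 + i)) (rho L η (n + 1 + i))
            (discs L η (n + 1 + i)), ∮ z in C(d.1, d.2), f z * (z - t)⁻¹‖
        ≤ (2 * Real.pi)⁻¹ * (2 * Real.pi * (1280 * η (n + 1) * B)) := by gcongr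
      _ = _ := by field_simp

end Pool.Agent.Lib.MP_7cb37e_an
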