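import Mathlib

set_option autoImplicit false

namespace Pool.Agent.Lib.MP_7cb37e_an

open Complex MeasureTheory Metric Set

/-- The union of the boundary circles. -/
def Gam (D : Finset (ℂ × ℝ)) : Set ℂ := sphere 0 3 ∪ ⋃ d ∈ D, sphere d.1 d.2

/-- The closed disc of radius 3 with the open discs of `D` removed. -/
def XD (D : Finset (ℂ × ℝ)) : Set ℂ := closedBall 0 3 \ ⋃ d ∈ D, ball d.1 d.2

/-- A finite family of holes with disjoint closures inside the disc of radius 3. -/
structure Good (D : Finset (ℂ × ℝ)) : Prop where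
  pos : ∀ d ∈ D, 0 < d.2
  inside : ∀ d ∈ D, ‖d.1‖ + d.2 < 3
  sep : ∀ d ∈ D, ∀ e ∈ D, d ≠ e → d.2 + e.2 < dist d.1 e.1

/-- The boundary functional. -/
noncomputable def J (D : Finset (ℂ × ℝ)) (u : ℂ → ℂ) : ℂ :=
  (∮ z in C(0, 3), u z) - ∑ d ∈ D, ∮ z in C(d.1, d.2), u z

variable {D : Finset (ℂ × ℝ)}

lemma Gam_subset_XD (hD : Good D) : Gam D ⊆ XD D := by
  intro z hz
  rcases hz with hz | hz
  · refine ⟨sphere_subset_closedBall hz, ?_⟩
    simp only [mem_iUnion, not_exists]
    intro d hd hzd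
    have h1 := hD.inside d hd
    have h2 : ‖z‖ = 3 := by simpa using hz
    have h3 : dist z d.1 < d.2 := hzd
    have h4 : ‖z‖ ≤ ‖d.1‖ + dist z d.1 := by
      rw [dist_eq_norm]
      calc ‖z‖ = ‖d.1 + (z - d.1)‖ := by ring_nf
        _ ≤ _ := norm_add_le _ _
    linarith
  · simp only [mem_iUnion] at hz
    obtain ⟨d, hd, hzd⟩ := hz
    have hzd' : dist z d.1 = d.2 := hzd
    refine ⟨?_, ?_⟩
    · have h1 := hD.inside d hd
      have h4 : ‖z‖ ≤ ‖d.1‖ + dist z d.1 := by
        rw [dist_eq_norm]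
        calc ‖z‖ = ‖d.1 + (z - d.1)‖ := by ring_nf
          _ ≤ _ := norm_add_le _ _
      simp only [mem_closedBall, dist_zero_right]
      linarith
    · simp only [mem_iUnion, not_exists]
      intro e he hze
      have hze' : dist z e.1 < e.2 := hze
      by_cases hde : d = e
      · subst hde; linarith
      · have := hD.sep d hd e he hde
        have h5 : dist d.1 e.1 ≤ dist z d.1 + dist z e.1 := by
          rw [dist_comm z d.1]; exact dist_triangle _ _ _
        linarith

lemma sphere_subset_Gam {d : ℂ × ℝ} (hd : d ∈ D) : sphere d.1 d.2 ⊆ Gam D := by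
  intro z hz
  right
  simp only [mem_iUnion]
  exact ⟨d, hd, hz⟩

lemma circleInt_outer {u : ℂ → ℂ} (hu : ContinuousOn u (Gam D)) :
    CircleIntegrable u 0 3 :=
  ContinuousOn.circleIntegrable (by norm_num) (hu.mono subset_union_left)

lemma circleInt_inner (hD : Good D) {u : ℂ → ℂ} (hu : ContinuousOn u (Gam D)) {d : ℂ × ℝ}
    (hd : d ∈ D) : CircleIntegrable u d.1 d.2 :=
  ContinuousOn.circleIntegrable (hD.pos d hd).le (hu.mono (sphere_subset_Gam hd))

lemma J_add (hD : Good D) {u v : ℂ → ℂ} (hu : ContinuousOn u (Gam D))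
    (hv : ContinuousOn v (Gam D)) : J D (fun z => u z + v z) = J D u + J D v := by
  unfold J
  rw [circleIntegral.integral_add (circleInt_outer hu) (circleInt_outer hv)]
  rw [Finset.sum_congr rfl (fun d hd => circleIntegral.integral_add (circleInt_inner hD hu hd)
    (circleInt_inner hD hv hd)), Finset.sum_add_distrib]
  ring

lemma J_const_mul (a : ℂ) (u : ℂ → ℂ) : J D (fun z => a * u z) = a * J D u := by
  unfold J
  simp only [circleIntegral.integral_const_mul]
  rw [mul_sub, Finset.mul_sum]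

lemma J_congr (hD : Good D) {u v : ℂ → ℂ} (h : EqOn u v (Gam D)) : J D u = J D v := by
  unfold J
  rw [circleIntegral.integral_congr (by norm_num) (h.mono subset_union_left)]
  congr 1
  exact Finset.sum_congr rfl fun d hd =>
    circleIntegral.integral_congr (hD.pos d hd).le (h.mono (sphere_subset_Gam hd))

lemma J_sub (hD : Good D) {u v : ℂ → ℂ} (hu : ContinuousOn u (Gam D))
    (hv : ContinuousOn v (Gam D)) : J D (fun z => u z - v z) = J D u - J D v := by
  unfold J
  rw [circleIntegral.integral_sub (circleInt_outer hu) (circleInt_outer hv)]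
  rw [Finset.sum_congr rfl (fun d hd => circleIntegral.integral_sub (circleInt_inner hD hu hd)
    (circleInt_inner hD hv hd)), Finset.sum_sub_distrib]
  ring

/-- integral of `1/(z-w)` over a circle with `w` outside the closed disc -/
lemma integral_inv_outside {c w : ℂ} {r : ℝ} (hr : 0 ≤ r) (hw : r < dist w c) :
    (∮ z in C(c, r), (z - w)⁻¹) = 0 := by
  have hne : ∀ z ∈ closedBall c r, z - w ≠ 0 := by
    intro z hz h
    rw [sub_eq_zero] at h
    subst h
    have : dist z c ≤ r := hz
    linarith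
  apply Complex.circleIntegral_eq_zero_of_differentiable_on_off_countable hr countable_empty
  · exact ContinuousOn.inv₀ (by fun_prop) hne
  · intro z hz
    exact DifferentiableAt.inv (by fun_prop) (hne z (ball_subset_closedBall hz.1))

lemma J_zpow_of_ne {n : ℤ} (hn : n ≠ -1) (w : ℂ) : J D (fun z => (z - w) ^ n) = 0 := by
  unfold J
  simp [circleIntegral.integral_sub_zpow_of_ne hn]

lemma J_inv_of_notMem (hD : Good D) {w : ℂ} (hw : w ∉ XD D) : J D (fun z => (z - w)⁻¹) = 0 := by
  unfold J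
  by_cases hw3 : w ∈ closedBall (0 : ℂ) 3
  · have : w ∈ ⋃ d ∈ D, ball d.1 d.2 := by
      by_contra h
      exact hw ⟨hw3, h⟩
    simp only [mem_iUnion] at this
    obtain ⟨d, hd, hwd⟩ := this
    have hwd' : dist w d.1 < d.2 := hwd
    have hin : w ∈ ball (0 : ℂ) 3 := by
      have h1 := hD.inside d hd
      have h4 : ‖w‖ ≤ ‖d.1‖ + dist w d.1 := by
        rw [dist_eq_norm]
        calc ‖w‖ = ‖d.1 + (w - d.1)‖ := by ring_nf
          _ ≤ _ := norm_add_le _ _
      simp only [mem_ball, dist_zero_right]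
      linarith
    rw [circleIntegral.integral_sub_inv_of_mem_ball hin]
    rw [Finset.sum_eq_single_of_mem d hd]
    · rw [circleIntegral.integral_sub_inv_of_mem_ball hwd, sub_self]
    · intro e he hed
      apply integral_inv_outside (hD.pos e he).le
      have := hD.sep d hd e he (Ne.symm hed)
      have h5 : dist d.1 e.1 ≤ dist w d.1 + dist w e.1 := by
        rw [dist_comm w d.1]; exact dist_triangle _ _ _
      linarith
  · have hw3' : 3 < dist w 0 := by simpa using hw3
    rw [integral_inv_outside (by norm_num) hw3', zero_sub, neg_eq_zero]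
    apply Finset.sum_eq_zero
    intro d hd
    apply integral_inv_outside (hD.pos d hd).le
    have h1 := hD.inside d hd
    have h4 : ‖w‖ ≤ ‖d.1‖ + dist w d.1 := by
      rw [dist_eq_norm]
      calc ‖w‖ = ‖d.1 + (w - d.1)‖ := by ring_nf
        _ ≤ _ := norm_add_le _ _
    rw [dist_zero_right] at hw3'
    linarith

/-- interior points of `XD` -/
def XDo (D : Finset (ℂ × ℝ)) : Set ℂ := ball 0 3 \ ⋃ d ∈ D, closedBall d.1 d.2

lemma XDo_subset (_hD : Good D) : XDo D ⊆ XD D \ Gam D := by
  intro z hz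
  obtain ⟨h1, h2⟩ := hz
  simp only [mem_iUnion, not_exists, mem_closedBall, not_le] at h2
  refine ⟨⟨ball_subset_closedBall h1, ?_⟩, ?_⟩
  · simp only [mem_iUnion, not_exists, mem_ball, not_lt]
    intro d hd
    exact (h2 d hd).le
  · rintro (h | h)
    · simp only [mem_sphere_iff_norm, sub_zero] at h
      simp only [mem_ball, dist_zero_right] at h1
      linarith
    · simp only [mem_iUnion] at h
      obtain ⟨d, hd, hzd⟩ := h
      have := h2 d hd
      have hzd' : dist z d.1 = d.2 := hzd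
      linarith

lemma J_inv_of_mem (hD : Good D) {w : ℂ} (hw : w ∈ XDo D) :
    J D (fun z => (z - w)⁻¹) = 2 * Real.pi * I := by
  unfold J
  obtain ⟨h1, h2⟩ := hw
  simp only [mem_iUnion, not_exists, mem_closedBall, not_le] at h2
  rw [circleIntegral.integral_sub_inv_of_mem_ball h1]
  rw [Finset.sum_eq_zero, sub_zero]
  intro d hd
  exact integral_inv_outside (hD.pos d hd).le (h2 d hd)

/-- The class of functions all of whose products with negative powers are annihilated. -/
def Ann (D : Finset (ℂ × ℝ)) (f : ℂ → ℂ) : Prop :=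
  ContinuousOn f (Gam D) ∧ ∀ p, p ∉ XD D → ∀ k : ℕ, J D (fun z => f z * ((z - p)⁻¹) ^ k) = 0

lemma cont_inv_pow (hD : Good D) {p : ℂ} (hp : p ∉ XD D) (k : ℕ) :
    ContinuousOn (fun z : ℂ => ((z - p)⁻¹) ^ k) (Gam D) := by
  apply ContinuousOn.pow
  apply ContinuousOn.inv₀ (by fun_prop)
  intro z hz h
  rw [sub_eq_zero] at h
  subst h
  exact hp (Gam_subset_XD hD hz)

lemma ne_of_mem_Gam (hD : Good D) {p : ℂ} (hp : p ∉ XD D) {z : ℂ} (hz : z ∈ Gam D) :
    z - p ≠ 0 := by
  intro h
  rw [sub_eq_zero] at h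
  subst h
  exact hp (Gam_subset_XD hD hz)

lemma J_inv_pow (hD : Good D) {p : ℂ} (hp : p ∉ XD D) (k : ℕ) :
    J D (fun z => ((z - p)⁻¹) ^ k) = 0 := by
  by_cases hk : k = 1
  · subst hk
    simpa using J_inv_of_notMem hD hp
  · have : (fun z : ℂ => ((z - p)⁻¹) ^ k) = (fun z : ℂ => (z - p) ^ (-(k : ℤ))) := by
      funext z
      rw [zpow_neg, zpow_natCast, inv_pow]
    rw [this]
    apply J_zpow_of_ne
    omega

lemma J_pow (j : ℕ) : J D (fun z => z ^ j) = 0 := by
  have := J_zpow_of_ne (D := D) (n := (j : ℤ)) (by omega) 0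
  simpa using this

lemma ann_pow (hD : Good D) (j : ℕ) : Ann D (fun z => z ^ j) := by
  refine ⟨by fun_prop, ?_⟩
  intro p hp
  induction j with
  | zero =>
    intro k
    simpa using J_inv_pow hD hp k
  | succ j ih =>
    intro k
    cases k with
    | zero => simpa using J_pow (D := D) (j + 1)
    | succ k =>
      have h1 : EqOn (fun z : ℂ => z ^ (j + 1) * ((z - p)⁻¹) ^ (k + 1))
          (fun z : ℂ => z ^ j * ((z - p)⁻¹) ^ k + p * (z ^ j * ((z - p)⁻¹) ^ (k + 1)))
          (Gam D) := by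
        intro z hz
        have hne := ne_of_mem_Gam hD hp hz
        simp only
        have : (z - p)⁻¹ ^ (k + 1) * z = (z - p)⁻¹ ^ k + p * (z - p)⁻¹ ^ (k + 1) := by
          have h2 : (z - p)⁻¹ * z = 1 + p * (z - p)⁻¹ := by
            field_simp
            ring
          calc (z - p)⁻¹ ^ (k + 1) * z = (z - p)⁻¹ ^ k * ((z - p)⁻¹ * z) := by ring
            _ = (z - p)⁻¹ ^ k * (1 + p * (z - p)⁻¹) := by rw [h2]
            _ = _ := by ring
        calc z ^ (j + 1) * (z - p)⁻¹ ^ (k + 1) = z ^ j * ((z - p)⁻¹ ^ (k + 1) * z) := by ring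
          _ = _ := by rw [this]; ring
      have hc : ∀ k : ℕ, ContinuousOn (fun z : ℂ => z ^ j * ((z - p)⁻¹) ^ k) (Gam D) := fun k =>
        ContinuousOn.mul (by fun_prop) (cont_inv_pow hD hp k)
      rw [J_congr hD h1, J_add hD (u := fun z => z ^ j * ((z - p)⁻¹) ^ k)
        (v := fun z => p * (z ^ j * ((z - p)⁻¹) ^ (k + 1))) (hc k)
        (continuousOn_const.mul (hc (k + 1))), J_const_mul, ih k, ih (k + 1)]
      simp

lemma Ann.add (hD : Good D) {f g : ℂ → ℂ} (hf : Ann D f) (hg : Ann D g) :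
    Ann D (fun z => f z + g z) := by
  refine ⟨hf.1.add hg.1, ?_⟩
  intro p hp k
  have : (fun z : ℂ => (f z + g z) * ((z - p)⁻¹) ^ k) =
      fun z => f z * ((z - p)⁻¹) ^ k + g z * ((z - p)⁻¹) ^ k := by
    funext z; ring
  rw [this, J_add hD (u := fun z => f z * ((z - p)⁻¹) ^ k) (v := fun z => g z * ((z - p)⁻¹) ^ k)
    (hf.1.mul (cont_inv_pow hD hp k)) (hg.1.mul (cont_inv_pow hD hp k)),
    hf.2 p hp k, hg.2 p hp k, add_zero]

lemma Ann.const_mul {f : ℂ → ℂ} (hf : Ann D f) (a : ℂ) : Ann D (fun z => a * f z) := by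
  refine ⟨continuousOn_const.mul hf.1, ?_⟩
  intro p hp k
  have : (fun z : ℂ => (a * f z) * ((z - p)⁻¹) ^ k) =
      fun z => a * (f z * ((z - p)⁻¹) ^ k) := by
    funext z; ring
  rw [this, J_const_mul, hf.2 p hp k, mul_zero]

lemma Ann.mul_inv (hD : Good D) {f : ℂ → ℂ} (hf : Ann D f) {q : ℂ} (hq : q ∉ XD D) :
    Ann D (fun z => f z * (z - q)⁻¹) := by
  have hcq : ContinuousOn (fun z : ℂ => (z - q)⁻¹) (Gam D) := by
    simpa using cont_inv_pow hD hq 1
  refine ⟨hf.1.mul hcq, ?_⟩
  intro p hp k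
  induction k with
  | zero =>
    simpa using hf.2 q hq 1
  | succ k ih =>
    by_cases hpq : p = q
    · subst hpq
      have : (fun z : ℂ => (f z * (z - p)⁻¹) * ((z - p)⁻¹) ^ (k + 1)) =
          fun z => f z * ((z - p)⁻¹) ^ (k + 2) := by
        funext z; ring
      rw [this]
      exact hf.2 p hp (k + 2)
    · have h1 : EqOn (fun z : ℂ => (f z * (z - q)⁻¹) * ((z - p)⁻¹) ^ (k + 1))
          (fun z : ℂ => (q - p)⁻¹ * ((f z * (z - q)⁻¹) * ((z - p)⁻¹) ^ k
            - f z * ((z - p)⁻¹) ^ (k + 1))) (Gam D) := by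
        intro z hz
        have hne := ne_of_mem_Gam hD hp hz
        have hne2 := ne_of_mem_Gam hD hq hz
        have hqp : q - p ≠ 0 := sub_ne_zero.mpr (Ne.symm hpq)
        simp only
        have h3 : (z - q)⁻¹ * (z - p)⁻¹ = (q - p)⁻¹ * ((z - q)⁻¹ - (z - p)⁻¹) := by
          field_simp
          ring
        calc (f z * (z - q)⁻¹) * ((z - p)⁻¹) ^ (k + 1)
            = f z * ((z - p)⁻¹) ^ k * ((z - q)⁻¹ * (z - p)⁻¹) := by ring
          _ = f z * ((z - p)⁻¹) ^ k * ((q - p)⁻¹ * ((z - q)⁻¹ - (z - p)⁻¹)) := by rw [h3]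
          _ = _ := by ring
      rw [J_congr hD h1, J_const_mul, J_sub hD
        (u := fun z => (f z * (z - q)⁻¹) * ((z - p)⁻¹) ^ k)
        (v := fun z => f z * ((z - p)⁻¹) ^ (k + 1))
        ((hf.1.mul hcq).mul (cont_inv_pow hD hp k))
        (hf.1.mul (cont_inv_pow hD hp (k + 1))), ih, hf.2 p hp (k + 1)]
      simp

lemma ann_poly (hD : Good D) (p : Polynomial ℂ) : Ann D (fun z => p.eval z) := by
  induction p using Polynomial.induction_on' with
  | add p q hp hq =>
    simpa [Polynomial.eval_add] using hp.add hD hq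
  | monomial n a =>
    simpa [Polynomial.eval_monomial] using (ann_pow hD n).const_mul a

lemma ann_prod (hD : Good D) (p : Polynomial ℂ) (s : Multiset ℂ) (hs : ∀ x ∈ s, x ∉ XD D) :
    Ann D (fun z => p.eval z * (s.map (fun x => (z - x)⁻¹)).prod) := by
  induction s using Multiset.induction_on with
  | empty => simpa using ann_poly hD p
  | cons a s ih =>
    have h1 := ih (fun x hx => hs x (Multiset.mem_cons_of_mem hx))
    have h2 := h1.mul_inv hD (hs a (Multiset.mem_cons_self a s))
    have h3 : (fun z => p.eval z * ((a ::ₘ s).map (fun x => (z - x)⁻¹)).prod) =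
        fun z => p.eval z * (s.map (fun x => (z - x)⁻¹)).prod * (z - a)⁻¹ := by
      funext z
      rw [Multiset.map_cons, Multiset.prod_cons]
      ring
    rw [h3]
    exact h2

lemma XD_nonempty (hD : Good D) : (XD D).Nonempty :=
  ⟨3, Gam_subset_XD hD (Or.inl (by simp))⟩

lemma ann_rational (hD : Good D) (p q : Polynomial ℂ) (hq : ∀ z ∈ XD D, q.eval z ≠ 0) :
    Ann D (fun z => p.eval z / q.eval z) := by
  have hq0 : q ≠ 0 := by
    rintro rfl
    obtain ⟨z, hz⟩ := XD_nonempty hD
    exact hq z hz (by simp)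
  have hsplit : q.Splits := IsAlgClosed.splits q
  have hroots : ∀ x ∈ q.roots, x ∉ XD D := by
    intro x hx hxX
    exact hq x hxX (by simpa using (Polynomial.mem_roots hq0).1 hx)
  have h1 := (ann_prod hD p q.roots hroots).const_mul (q.leadingCoeff)⁻¹
  have h2 : (fun z => p.eval z / q.eval z) =
      fun z => (q.leadingCoeff)⁻¹ * (p.eval z * (q.roots.map (fun x => (z - x)⁻¹)).prod) := by
    funext z
    have h3 : q.eval z = q.leadingCoeff * (q.roots.map (fun x => (z - x))).prod := by
      conv_lhs => rw [hsplit.eq_prod_roots]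
      rw [Polynomial.eval_mul, Polynomial.eval_C, Polynomial.eval_multiset_prod,
        Multiset.map_map]
      simp
    rw [h3, Multiset.prod_map_inv]
    rw [div_eq_mul_inv, mul_inv]
    ring
  rw [h2]
  exact h1

/-- Cauchy formula for rational functions on a disc with finitely many holes. -/
lemma cauchy_rational (hD : Good D) (p q : Polynomial ℂ) (hq : ∀ z ∈ XD D, q.eval z ≠ 0)
    {w : ℂ} (hw : w ∈ XDo D) :
    J D (fun z => p.eval z / q.eval z * (z - w)⁻¹) = 2 * Real.pi * I * (p.eval w / q.eval w) := by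
  have hwX : w ∈ XD D := (XDo_subset hD hw).1
  have hwG : w ∉ Gam D := (XDo_subset hD hw).2
  have hqw : q.eval w ≠ 0 := hq w hwX
  set P : Polynomial ℂ := Polynomial.C (q.eval w) * p - Polynomial.C (p.eval w) * q with hP
  have hroot : P.IsRoot w := by
    simp [hP, Polynomial.IsRoot, mul_comm]
  obtain ⟨P1, hP1⟩ := Polynomial.dvd_iff_isRoot.2 hroot
  have h1 : EqOn (fun z => p.eval z / q.eval z * (z - w)⁻¹)
      (fun z => (q.eval w)⁻¹ * (P1.eval z / q.eval z) + (p.eval w / q.eval w) * (z - w)⁻¹)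
      (Gam D) := by
    intro z hz
    have hzw : z - w ≠ 0 := by
      intro h
      rw [sub_eq_zero] at h
      subst h
      exact hwG hz
    have hqz : q.eval z ≠ 0 := hq z (Gam_subset_XD hD hz)
    have h2 : P.eval z = (z - w) * P1.eval z := by
      rw [hP1]; simp
    have h3 : P.eval z = q.eval w * p.eval z - p.eval w * q.eval z := by
      simp [hP]
    simp only
    have h4 : P1.eval z = (q.eval w * p.eval z - p.eval w * q.eval z) / (z - w) := by
      rw [← h3, h2]; field_simp
    rw [h4]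
    field_simp
    ring
  have hinv : ContinuousOn (fun z : ℂ => (z - w)⁻¹) (Gam D) := by
    apply ContinuousOn.inv₀ (by fun_prop)
    intro z hz h
    rw [sub_eq_zero] at h
    subst h
    exact hwG hz
  have hann := ann_rational hD P1 q hq
  rw [J_congr hD h1, J_add hD (u := fun z => (q.eval w)⁻¹ * (P1.eval z / q.eval z))
    (v := fun z => (p.eval w / q.eval w) * (z - w)⁻¹)
    (continuousOn_const.mul hann.1) (continuousOn_const.mul hinv),
    J_const_mul, J_const_mul, J_inv_of_mem hD hw]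
  have hz0 : J D (fun z => P1.eval z / q.eval z) = 0 := by
    obtain ⟨x, hx⟩ : ∃ x, x ∉ XD D := ⟨4, by
      intro h
      have := h.1
      simp at this
      norm_num at this⟩
    simpa using hann.2 x hx 0
  rw [hz0]
  ring

end Pool.Agent.Lib.MP_7cb37e_an
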