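import Pool.Agent.Lib.MP_7cb37e_an.Discs

set_option autoImplicit false

namespace Pool.Agent.Lib.MP_7cb37e_an

open Complex Metric Set

lemma sum_inv_sqrt (n : ℕ) :
    ∑ i ∈ Finset.range n, 1 / Real.sqrt ((i : ℝ) + 1) ≤ 2 * Real.sqrt n := by
  induction n with
  | zero => simp
  | succ n ih =>
    rw [Finset.sum_range_succ]
    have hn : (0 : ℝ) ≤ n := Nat.cast_nonneg n
    have h1 : 0 < Real.sqrt ((n : ℝ) + 1) := Real.sqrt_pos.2 (by linarith)
    have h0 : 0 ≤ Real.sqrt (n : ℝ) := Real.sqrt_nonneg _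
    have h2 : Real.sqrt ((n : ℝ) + 1) ^ 2 = n + 1 := Real.sq_sqrt (by linarith)
    have h3 : Real.sqrt (n : ℝ) ^ 2 = n := Real.sq_sqrt hn
    have h4 : 1 / Real.sqrt ((n : ℝ) + 1) ≤ 2 * (Real.sqrt ((n : ℝ) + 1) - Real.sqrt n) := by
      rw [div_le_iff₀ h1]
      nlinarith [sq_nonneg (Real.sqrt ((n : ℝ) + 1) - Real.sqrt n)]
    push_cast
    linarith

lemma sum_int (N : ℕ) :
    ∑ j ∈ Finset.Ico (-(N : ℤ)) (N : ℤ), 1 / Real.sqrt (|(j : ℝ)| + 1) ≤ 4 * Real.sqrt N := by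
  have h : ∑ j ∈ Finset.Ico (-(N : ℤ)) (N : ℤ), 1 / Real.sqrt (|(j : ℝ)| + 1) ≤
      2 * ∑ i ∈ Finset.range N, 1 / Real.sqrt ((i : ℝ) + 1) := by
    induction N with
    | zero => simp
    | succ N ih =>
      have h1 : Finset.Ico (-((N + 1 : ℕ) : ℤ)) ((N + 1 : ℕ) : ℤ) =
          insert (N : ℤ) (insert (-(N : ℤ) - 1) (Finset.Ico (-(N : ℤ)) (N : ℤ))) := by
        ext j
        simp only [Finset.mem_insert, Finset.mem_Ico]
        push_cast
        omega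
      rw [h1, Finset.sum_insert, Finset.sum_insert, Finset.sum_range_succ]
      · have hN : (0 : ℝ) ≤ N := Nat.cast_nonneg N
        have h2 : |((N : ℤ) : ℝ)| = N := by simp
        have h3 : |((-(N : ℤ) - 1 : ℤ) : ℝ)| = N + 1 := by
          push_cast
          rw [abs_of_nonpos (by linarith)]
          ring
        rw [h2, h3]
        have h4 : 1 / Real.sqrt ((N : ℝ) + 1 + 1) ≤ 1 / Real.sqrt ((N : ℝ) + 1) := by
          apply one_div_le_one_div_of_le (Real.sqrt_pos.2 (by linarith))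
          exact Real.sqrt_le_sqrt (by linarith)
        linarith
      · simp
      · simp only [Finset.mem_insert, Finset.mem_Ico]
        omega
  have h2 := sum_inv_sqrt N
  linarith

lemma sum_shift (L : ℕ) (k : ℤ) (h0 : 0 ≤ k) (h2 : k ≤ 2 * L) :
    ∑ m ∈ Finset.Ico (-(3 * (L : ℤ))) (3 * (L : ℤ)), 1 / Real.sqrt (|((m - k : ℤ) : ℝ)| + 1) ≤
      4 * Real.sqrt (5 * L) := by
  have h1 := sum_int (5 * L)
  push_cast at h1
  refine le_trans ?_ h1
  have h3 : ∑ m ∈ Finset.Ico (-(3 * (L : ℤ))) (3 * (L : ℤ)),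
      1 / Real.sqrt (|((m - k : ℤ) : ℝ)| + 1) =
      ∑ j ∈ (Finset.Ico (-(3 * (L : ℤ))) (3 * (L : ℤ))).image (fun m => m - k),
        1 / Real.sqrt (|(j : ℝ)| + 1) := by
    rw [Finset.sum_image]
    intro a _ b _ hab
    simpa using hab
  rw [h3]
  apply Finset.sum_le_sum_of_subset_of_nonneg
  · intro j hj
    rw [Finset.mem_image] at hj
    obtain ⟨m, hm, rfl⟩ := hj
    rw [Finset.mem_Ico] at hm ⊢
    omega
  · intro i _ _
    positivity

lemma quarter_bound (m : ℤ) (θ : ℝ) (h0 : 0 ≤ θ) (h1 : θ ≤ 1) :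
    (|(m : ℝ)| + 1) / 4 ≤ max |(m : ℝ) + 1 / 2 - θ| (1 / 2) := by
  rcases eq_or_ne m 0 with rfl | hm
  · simp only [Int.cast_zero, abs_zero]
    refine le_trans ?_ (le_max_right _ _)
    norm_num
  · have h2 : (1 : ℝ) ≤ |(m : ℝ)| := by
      have := Int.one_le_abs hm
      exact_mod_cast this
    have h3 : |(m : ℝ)| - 1 / 2 ≤ |(m : ℝ) + 1 / 2 - θ| := by
      have h4 : |(m : ℝ)| ≤ |(m : ℝ) + 1 / 2 - θ| + |θ - 1 / 2| := by
        have := abs_add_le ((m : ℝ) + 1 / 2 - θ) (θ - 1 / 2)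
        have h5 : (m : ℝ) + 1 / 2 - θ + (θ - 1 / 2) = m := by ring
        rw [h5] at this
        exact this
      have h6 : |θ - 1 / 2| ≤ 1 / 2 := by
        rw [abs_le]; constructor <;> linarith
      linarith
    rcases le_or_gt |(m : ℝ)| 1 with h7 | h7
    · refine le_trans ?_ (le_max_right _ _)
      linarith
    · refine le_trans ?_ (le_max_left _ _)
      linarith

lemma dist_ctr_ge {L : ℕ} (hL : 1 ≤ L) (p : ℤ × ℤ) (x : ℝ) :
    1 / dist (x : ℂ) (ctr L p) ≤ 4 * (L : ℝ) * ((1 / Real.sqrt (|((p.1 - ⌊x * L⌋ : ℤ) : ℝ)| + 1)) *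
      (1 / Real.sqrt (|((p.2 - 0 : ℤ) : ℝ)| + 1))) := by
  have hL' : (1 : ℝ) ≤ L := by exact_mod_cast hL
  have hL0 : (0 : ℝ) < L := by linarith
  set k : ℤ := ⌊x * L⌋ with hk
  set A : ℝ := |((p.1 - k : ℤ) : ℝ)| + 1 with hA
  set B : ℝ := |((p.2 - 0 : ℤ) : ℝ)| + 1 with hB
  have hA1 : 1 ≤ A := by rw [hA]; linarith [abs_nonneg (((p.1 - k : ℤ) : ℝ))]
  have hB1 : 1 ≤ B := by rw [hB]; linarith [abs_nonneg (((p.2 - 0 : ℤ) : ℝ))]
  have him : 1 / (2 * (L : ℝ)) ≤ |(ctr L p).im| := ctr_im_ge hL p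
  have hdim : |(ctr L p).im| ≤ dist (x : ℂ) (ctr L p) := by
    rw [dist_comm, dist_eq_norm]
    have := Complex.abs_im_le_norm (ctr L p - x)
    simpa using this
  have hdre : |(ctr L p).re - x| ≤ dist (x : ℂ) (ctr L p) := by
    rw [dist_comm, dist_eq_norm]
    have := Complex.abs_re_le_norm (ctr L p - x)
    simpa using this
  -- bound by A
  have h1 : A / (4 * L) ≤ dist (x : ℂ) (ctr L p) := by
    have h2 := quarter_bound (p.1 - k) (x * L - k) (by linarith [Int.floor_le (x * L)])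
      (by linarith [Int.lt_floor_add_one (x * L)])
    have h3 : ((p.1 - k : ℤ) : ℝ) + 1 / 2 - (x * L - k) = ((ctr L p).re - x) * L := by
      rw [ctr_re]
      push_cast
      field_simp
      ring
    rw [h3, abs_mul, abs_of_pos hL0] at h2
    have h4 : A / 4 ≤ dist (x : ℂ) (ctr L p) * L := by
      refine h2.trans (max_le ?_ ?_)
      · gcongr
      · have := him.trans hdim
        rw [div_le_iff₀ (by positivity)] at this
        linarith
    rw [div_le_iff₀ (by positivity)]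
    linarith
  have h5 : B / (4 * L) ≤ dist (x : ℂ) (ctr L p) := by
    have h2 := quarter_bound (p.2 - 0) 0 le_rfl (by norm_num)
    have h3 : ((p.2 - 0 : ℤ) : ℝ) + 1 / 2 - 0 = (ctr L p).im * L := by
      rw [ctr_im]
      push_cast
      field_simp
      ring
    rw [h3, abs_mul, abs_of_pos hL0] at h2
    have h4 : B / 4 ≤ dist (x : ℂ) (ctr L p) * L := by
      refine h2.trans (max_le ?_ ?_)
      · gcongr
      · have := him.trans hdim
        rw [div_le_iff₀ (by positivity)] at this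
        linarith
    rw [div_le_iff₀ (by positivity)]
    linarith
  have hd0 : 0 < dist (x : ℂ) (ctr L p) := lt_of_lt_of_le (by positivity) h1
  have hsA : 0 < Real.sqrt A := Real.sqrt_pos.2 (by linarith)
  have hsB : 0 < Real.sqrt B := Real.sqrt_pos.2 (by linarith)
  have hAsq : Real.sqrt A ^ 2 = A := Real.sq_sqrt (by linarith)
  have hBsq : Real.sqrt B ^ 2 = B := Real.sq_sqrt (by linarith)
  -- geometric mean
  have h6 : Real.sqrt A * Real.sqrt B / (4 * L) ≤ dist (x : ℂ) (ctr L p) := by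
    have h7 : Real.sqrt A * Real.sqrt B ≤ (A + B) / 2 := by nlinarith [sq_nonneg (Real.sqrt A - Real.sqrt B)]
    have h8 : (A + B) / 2 / (4 * L) ≤ dist (x : ℂ) (ctr L p) := by
      have : (A + B) / 2 / (4 * (L : ℝ)) = (A / (4 * L) + B / (4 * L)) / 2 := by ring
      rw [this]; linarith
    refine le_trans ?_ h8
    gcongr
  calc 1 / dist (x : ℂ) (ctr L p) ≤ 1 / (Real.sqrt A * Real.sqrt B / (4 * L)) :=
        one_div_le_one_div_of_le (by positivity) h6
    _ = _ := by field_simp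

lemma cost {L : ℕ} (hL : 1 ≤ L) (x : ℝ) (h0 : 0 ≤ x) (h2 : x ≤ 2) :
    ∑ p ∈ box L, 1 / dist (x : ℂ) (ctr L p) ≤ 320 * (L : ℝ) ^ 2 := by
  have hL' : (1 : ℝ) ≤ L := by exact_mod_cast hL
  have hL0 : (0 : ℝ) < L := by linarith
  have hk0 : 0 ≤ ⌊x * L⌋ := Int.floor_nonneg.2 (by positivity)
  have hk2 : ⌊x * L⌋ ≤ 2 * (L : ℤ) := by
    have h3 : (⌊x * L⌋ : ℝ) ≤ 2 * L := (Int.floor_le _).trans (by nlinarith)
    exact_mod_cast h3
  calc ∑ p ∈ box L, 1 / dist (x : ℂ) (ctr L p)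
      ≤ ∑ p ∈ box L, 4 * (L : ℝ) * ((1 / Real.sqrt (|((p.1 - ⌊x * L⌋ : ℤ) : ℝ)| + 1)) *
      (1 / Real.sqrt (|((p.2 - 0 : ℤ) : ℝ)| + 1))) :=
        Finset.sum_le_sum fun p _ => dist_ctr_ge hL p x
    _ = 4 * (L : ℝ) * ((∑ m ∈ Finset.Ico (-(3 * (L : ℤ))) (3 * (L : ℤ)),
          1 / Real.sqrt (|((m - ⌊x * L⌋ : ℤ) : ℝ)| + 1)) *
        (∑ m ∈ Finset.Ico (-(3 * (L : ℤ))) (3 * (L : ℤ)),
          1 / Real.sqrt (|((m - 0 : ℤ) : ℝ)| + 1))) := by
        rw [← Finset.mul_sum, box, Finset.sum_product, Finset.sum_mul_sum]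
    _ ≤ 4 * (L : ℝ) * ((4 * Real.sqrt (5 * L)) * (4 * Real.sqrt (5 * L))) := by
        gcongr
        · exact sum_shift L _ hk0 hk2
        · exact sum_shift L 0 le_rfl (by positivity)
    _ = 320 * (L : ℝ) ^ 2 := by
        have h5 : Real.sqrt (5 * (L : ℝ)) * Real.sqrt (5 * (L : ℝ)) = 5 * L :=
          Real.mul_self_sqrt (by positivity)
        calc 4 * (L : ℝ) * ((4 * Real.sqrt (5 * L)) * (4 * Real.sqrt (5 * L)))
            = 64 * L * (Real.sqrt (5 * (L : ℝ)) * Real.sqrt (5 * (L : ℝ))) := by ring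
          _ = _ := by rw [h5]; ring

end Pool.Agent.Lib.MP_7cb37e_an
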