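import Mathlib

set_option autoImplicit false

namespace Pool.Agent.Lib.MP_7cb37e_an

open Filter Topology Metric Set

/-- The rational functions with poles off `X`. -/
def Rat0 (X : Set ℂ) : Set C(X, ℂ) :=
  {g : C(X, ℂ) | ∃ p q : Polynomial ℂ,
    (∀ z ∈ X, q.eval z ≠ 0) ∧ ∀ z : X, g z = p.eval (z : ℂ) / q.eval (z : ℂ)}

/-- The algebra of rational functions with poles off `X`. -/
def RatAlg (X : Set ℂ) : Subalgebra ℂ C(X, ℂ) where
  carrier := Rat0 X
  mul_mem' := by
    rintro f g ⟨p, q, hq, hf⟩ ⟨p', q', hq', hg⟩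
    refine ⟨p * p', q * q', ?_, ?_⟩
    · intro z hz
      rw [Polynomial.eval_mul]
      exact mul_ne_zero (hq z hz) (hq' z hz)
    · intro z
      have h1 := hq z z.2
      have h2 := hq' z z.2
      rw [ContinuousMap.mul_apply, hf, hg, Polynomial.eval_mul, Polynomial.eval_mul]
      field_simp
  add_mem' := by
    rintro f g ⟨p, q, hq, hf⟩ ⟨p', q', hq', hg⟩
    refine ⟨p * q' + p' * q, q * q', ?_, ?_⟩
    · intro z hz
      rw [Polynomial.eval_mul]
      exact mul_ne_zero (hq z hz) (hq' z hz)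
    · intro z
      have h1 := hq z z.2
      have h2 := hq' z z.2
      rw [ContinuousMap.add_apply, hf, hg, Polynomial.eval_mul, Polynomial.eval_add,
        Polynomial.eval_mul, Polynomial.eval_mul]
      field_simp
  algebraMap_mem' := by
    intro c
    refine ⟨Polynomial.C c, 1, ?_, ?_⟩
    · intro z _
      simp
    · intro z
      simp

lemma mem_RatAlg {X : Set ℂ} {f : C(X, ℂ)} : f ∈ RatAlg X ↔ f ∈ Rat0 X := Iff.rfl

lemma mem_closure_iff' {X : Set ℂ} [CompactSpace X] {f : C(X, ℂ)} :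
    f ∈ closure (Rat0 X) ↔ f ∈ (RatAlg X).topologicalClosure := Iff.rfl

/-- polynomial functions as elements of `C(X, ℂ)` -/
def polyFun (X : Set ℂ) (p : Polynomial ℂ) : C(X, ℂ) :=
  ⟨fun z => p.eval (z : ℂ), by fun_prop⟩

lemma polyFun_mem (X : Set ℂ) (p : Polynomial ℂ) : polyFun X p ∈ Rat0 X :=
  ⟨p, 1, by simp, by intro z; simp [polyFun]⟩

/-- The function `1/(z-a)` for `a` off `X`. -/
noncomputable def invFun (X : Set ℂ) (a : ℂ) (ha : a ∉ X) : C(X, ℂ) :=
  ⟨fun z => ((z : ℂ) - a)⁻¹, by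
    apply Continuous.inv₀ (by fun_prop)
    intro z h
    rw [sub_eq_zero] at h
    exact ha (h ▸ z.2)⟩

lemma invFun_mem (X : Set ℂ) (a : ℂ) (ha : a ∉ X) : invFun X a ha ∈ Rat0 X := by
  refine ⟨1, Polynomial.X - Polynomial.C a, ?_, ?_⟩
  · intro z hz h
    simp only [Polynomial.eval_sub, Polynomial.eval_X, Polynomial.eval_C, sub_eq_zero] at h
    exact ha (h ▸ hz)
  · intro z
    simp [invFun]

theorem bpd_zero {X : Set ℂ} [CompactSpace X] (x : X) (D : C(X, ℂ) → ℂ)
    (hadd : ∀ f ∈ closure (Rat0 X), ∀ g ∈ closure (Rat0 X), D (f + g) = D f + D g)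
    (hsmul : ∀ c : ℂ, ∀ f ∈ closure (Rat0 X), D (c • f) = c * D f)
    (hmul : ∀ f ∈ closure (Rat0 X), ∀ g ∈ closure (Rat0 X),
      D (f * g) = f x * D g + g x * D f)
    (hb : ∃ C : ℝ, ∀ f ∈ closure (Rat0 X), ∀ M : ℝ, (∀ z : X, ‖f z‖ ≤ M) → ‖D f‖ ≤ C * M)
    (hF : ∀ K : ℝ, ∃ (A : Finset ℂ) (c : ℂ → ℂ), (∀ a ∈ A, a ∉ X) ∧
      (∀ z ∈ X, ‖∑ a ∈ A, c a * (z - a)⁻¹‖ ≤ 2) ∧
      K ≤ ‖∑ a ∈ A, c a * ((x : ℂ) - a)⁻¹ ^ 2‖) :
    ∀ f ∈ closure (Rat0 X), D f = 0 := by
  obtain ⟨C, hC⟩ := hb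
  have hsub : Rat0 X ⊆ closure (Rat0 X) := subset_closure
  have h1mem : (1 : C(X, ℂ)) ∈ closure (Rat0 X) := hsub ((RatAlg X).one_mem)
  -- D 1 = 0
  have hD1 : D 1 = 0 := by
    have h := hmul 1 h1mem 1 h1mem
    simp only [mul_one, ContinuousMap.one_apply, one_mul] at h
    simpa using h
  have hD0 : D 0 = 0 := by
    have h := hsmul 0 1 h1mem
    rw [zero_smul, zero_mul] at h
    exact h
  set zc : C(X, ℂ) := polyFun X Polynomial.X with hzc
  have hzcm : zc ∈ closure (Rat0 X) := hsub (polyFun_mem X _)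
  have hzx : ∀ z : X, zc z = z := by intro z; simp [hzc, polyFun]
  -- D of the inverse function
  have hDinv : ∀ a (ha : a ∉ X), D (invFun X a ha) = -(D zc) * ((x : ℂ) - a)⁻¹ ^ 2 := by
    intro a ha
    have hxa : (x : ℂ) - a ≠ 0 := by
      intro h
      rw [sub_eq_zero] at h
      exact ha (h ▸ x.2)
    have hm1 : (invFun X a ha) ∈ closure (Rat0 X) := hsub (invFun_mem X a ha)
    have hm2 : (zc + (-a) • (1 : C(X, ℂ))) ∈ closure (Rat0 X) :=
      (RatAlg X).topologicalClosure.add_mem hzcm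
        ((RatAlg X).topologicalClosure.smul_mem h1mem (-a))
    have h3 : invFun X a ha * (zc + (-a) • (1 : C(X, ℂ))) = 1 := by
      ext z
      have hza : (z : ℂ) - a ≠ 0 := by
        intro h
        rw [sub_eq_zero] at h
        exact ha (h ▸ z.2)
      simp only [ContinuousMap.mul_apply, ContinuousMap.add_apply, ContinuousMap.smul_apply,
        ContinuousMap.one_apply, hzx, smul_eq_mul, mul_one]
      simp only [invFun, ContinuousMap.coe_mk]
      rw [← sub_eq_add_neg]
      exact inv_mul_cancel₀ hza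
    have h4 := hmul _ hm1 _ hm2
    rw [h3, hD1] at h4
    have h5 : D (zc + (-a) • (1 : C(X, ℂ))) = D zc := by
      rw [hadd _ hzcm _ ((RatAlg X).topologicalClosure.smul_mem h1mem (-a)),
        hsmul _ _ h1mem, hD1]
      ring
    rw [h5] at h4
    have h6 : (zc + (-a) • (1 : C(X, ℂ))) x = (x : ℂ) - a := by
      simp only [ContinuousMap.add_apply, ContinuousMap.smul_apply, ContinuousMap.one_apply, hzx,
        smul_eq_mul, mul_one]
      ring
    have h7 : (invFun X a ha) x = ((x : ℂ) - a)⁻¹ := rfl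
    rw [h6, h7] at h4
    have h8 : ((x : ℂ) - a) * D (invFun X a ha) = -(((x : ℂ) - a)⁻¹ * D zc) := by
      linear_combination -h4
    calc D (invFun X a ha) = ((x : ℂ) - a)⁻¹ * (((x : ℂ) - a) * D (invFun X a ha)) := by
          field_simp
      _ = ((x : ℂ) - a)⁻¹ * -(((x : ℂ) - a)⁻¹ * D zc) := by rw [h8]
      _ = _ := by ring
  -- D of sums
  have hDsum : ∀ (A : Finset ℂ) (c : ℂ → ℂ), (∀ a ∈ A, a ∉ X) →
      ∃ G ∈ closure (Rat0 X), (∀ z : X, G z = ∑ a ∈ A, c a * ((z : ℂ) - a)⁻¹) ∧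
        D G = -(D zc) * ∑ a ∈ A, c a * ((x : ℂ) - a)⁻¹ ^ 2 := by
    intro A c hA
    induction A using Finset.induction_on with
    | empty =>
      refine ⟨0, (RatAlg X).topologicalClosure.zero_mem, ?_, ?_⟩
      · intro z; simp
      · simp [hD0]
    | insert a A ha ih =>
      obtain ⟨G, hG, hGz, hGD⟩ := ih (fun b hb => hA b (Finset.mem_insert_of_mem hb))
      have haX : a ∉ X := hA a (Finset.mem_insert_self a A)
      have hm1 : (c a • invFun X a haX) ∈ closure (Rat0 X) :=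
        (RatAlg X).topologicalClosure.smul_mem (hsub (invFun_mem X a haX)) (c a)
      refine ⟨c a • invFun X a haX + G, (RatAlg X).topologicalClosure.add_mem hm1 hG, ?_, ?_⟩
      · intro z
        rw [Finset.sum_insert ha, ContinuousMap.add_apply, hGz, ContinuousMap.smul_apply,
          smul_eq_mul]
        rfl
      · rw [hadd _ hm1 _ hG, hsmul _ _ (hsub (invFun_mem X a haX)), hDinv, hGD,
          Finset.sum_insert ha]
        ring
  -- D zc = 0
  have hDz : D zc = 0 := by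
    by_contra hne
    have hpos : 0 < ‖D zc‖ := norm_pos_iff.2 hne
    obtain ⟨A, c, hA, hsup, hK⟩ := hF ((C * 2 + 1) / ‖D zc‖)
    obtain ⟨G, hG, hGz, hGD⟩ := hDsum A c hA
    have h1 := hC G hG 2 (by
      intro z
      rw [hGz z]
      exact hsup z z.2)
    rw [hGD, norm_mul, norm_neg] at h1
    have h2 : (C * 2 + 1) / ‖D zc‖ * ‖D zc‖ ≤
        ‖∑ a ∈ A, c a * ((x : ℂ) - a)⁻¹ ^ 2‖ * ‖D zc‖ := by gcongr
    rw [div_mul_cancel₀ _ hpos.ne'] at h2
    linarith
  -- D of polynomials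
  have hDpow : ∀ n : ℕ, D (zc ^ n) = 0 := by
    intro n
    induction n with
    | zero => simpa using hD1
    | succ n ih =>
      rw [pow_succ, hmul _ ((RatAlg X).topologicalClosure.pow_mem hzcm n) _ hzcm, ih, hDz]
      simp
  have hDpoly : ∀ p : Polynomial ℂ, D (polyFun X p) = 0 := by
    intro p
    induction p using Polynomial.induction_on' with
    | add p q hp hq =>
      have : polyFun X (p + q) = polyFun X p + polyFun X q := by
        ext z; simp [polyFun]
      rw [this, hadd _ (hsub (polyFun_mem X p)) _ (hsub (polyFun_mem X q)), hp, hq, add_zero]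
    | monomial n a =>
      have : polyFun X (Polynomial.monomial n a) = a • zc ^ n := by
        ext z
        rw [ContinuousMap.smul_apply, ContinuousMap.pow_apply, hzx]
        simp [polyFun, Polynomial.eval_monomial]
      rw [this, hsmul _ _ ((RatAlg X).topologicalClosure.pow_mem hzcm n), hDpow, mul_zero]
  -- D of rational functions
  have hDrat : ∀ g ∈ Rat0 X, D g = 0 := by
    rintro g ⟨p, q, hq, hg⟩
    have h1 : g * polyFun X q = polyFun X p := by
      ext z
      have hqz := hq z z.2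
      rw [ContinuousMap.mul_apply, hg z]
      simp only [polyFun, ContinuousMap.coe_mk]
      field_simp
    have h2 := hmul g (hsub ⟨p, q, hq, hg⟩) _ (hsub (polyFun_mem X q))
    rw [h1, hDpoly, hDpoly, mul_zero, zero_add] at h2
    have h3 : (polyFun X q) x ≠ 0 := hq x x.2
    rcases mul_eq_zero.1 h2.symm with h4 | h4
    · exact absurd h4 h3
    · exact h4
  -- closure
  intro f hf
  rw [← norm_eq_zero]
  apply le_antisymm _ (norm_nonneg _)
  apply le_of_forall_pos_le_add
  intro δ hδ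
  rw [zero_add]
  have hε : 0 < δ / (|C| + 1) := by positivity
  obtain ⟨g, hg, hfg⟩ := Metric.mem_closure_iff.1 hf (δ / (|C| + 1)) hε
  have hm : f - g ∈ closure (Rat0 X) := (RatAlg X).topologicalClosure.sub_mem hf (hsub hg)
  have h1 : D f = D (f - g) := by
    have h2 := hadd (f - g) hm g (hsub hg)
    rw [sub_add_cancel, hDrat g hg, add_zero] at h2
    exact h2
  rw [h1]
  have h3 := hC (f - g) hm ‖f - g‖ (fun z => (f - g).norm_coe_le_norm z)
  rw [dist_eq_norm] at hfg
  calc ‖D (f - g)‖ ≤ C * ‖f - g‖ := h3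
    _ ≤ |C| * ‖f - g‖ := by gcongr; exact le_abs_self C
    _ ≤ |C| * (δ / (|C| + 1)) := by gcongr
    _ ≤ δ := by
      rw [mul_div_assoc', div_le_iff₀ (by positivity)]
      nlinarith [abs_nonneg C]

end Pool.Agent.Lib.MP_7cb37e_an
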