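import Pool.Agent.Lib.MP_7cb37e_an.Cauchy

set_option autoImplicit false

namespace Pool.Agent.Lib.MP_7cb37e_an

open Complex Metric Set

/-- Lattice points: centres of the grid cells of side `1/L`. -/
noncomputable def ctr (L : ℕ) (p : ℤ × ℤ) : ℂ :=
  ⟨((p.1 : ℝ) + 1 / 2) / L, ((p.2 : ℝ) + 1 / 2) / L⟩

/-- Index box. -/
noncomputable def box (L : ℕ) : Finset (ℤ × ℤ) :=
  Finset.Ico (-(3 * (L : ℤ))) (3 * (L : ℤ)) ×ˢ Finset.Ico (-(3 * (L : ℤ))) (3 * (L : ℤ))

open Classical in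
/-- The admissible indices of a stage. -/
noncomputable def kept (L : ℕ) (old : Finset (ℂ × ℝ)) : Finset (ℤ × ℤ) :=
  (box L).filter (fun p => ‖ctr L p‖ ≤ 3 - 1 / (L : ℝ) ∧
    ∀ e ∈ old, e.2 + 1 / (L : ℝ) ≤ dist (ctr L p) e.1)

open Classical in
/-- The new discs of a stage. -/
noncomputable def newD (L : ℕ) (ρ : ℝ) (old : Finset (ℂ × ℝ)) : Finset (ℂ × ℝ) :=
  (kept L old).image (fun p => (ctr L p, ρ))

/-- The radius at stage `n`. -/
noncomputable def rho (L : ℕ → ℕ) (η : ℕ → ℝ) (n : ℕ) : ℝ := η n / (L n : ℝ) ^ 2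

open Classical in
/-- All discs of the stages `< n`. -/
noncomputable def discs (L : ℕ → ℕ) (η : ℕ → ℝ) : ℕ → Finset (ℂ × ℝ)
  | 0 => ∅
  | n + 1 => discs L η n ∪ newD (L n) (rho L η n) (discs L η n)

/-- The compact set. -/
def XX (L : ℕ → ℕ) (η : ℕ → ℝ) : Set ℂ :=
  closedBall 0 3 \ ⋃ n, ⋃ d ∈ discs L η n, ball d.1 d.2

lemma ctr_re (L : ℕ) (p : ℤ × ℤ) : (ctr L p).re = ((p.1 : ℝ) + 1 / 2) / L := rfl
lemma ctr_im (L : ℕ) (p : ℤ × ℤ) : (ctr L p).im = ((p.2 : ℝ) + 1 / 2) / L := rfl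

lemma mem_newD {L : ℕ} {ρ : ℝ} {old : Finset (ℂ × ℝ)} {d : ℂ × ℝ} :
    d ∈ newD L ρ old ↔ ∃ p, p ∈ kept L old ∧ (ctr L p, ρ) = d := by
  classical
  unfold newD
  rw [Finset.mem_image]

lemma mem_kept {L : ℕ} {old : Finset (ℂ × ℝ)} {p : ℤ × ℤ} (hL : 1 ≤ L) :
    p ∈ kept L old ↔ ‖ctr L p‖ ≤ 3 - 1 / (L : ℝ) ∧
      ∀ e ∈ old, e.2 + 1 / (L : ℝ) ≤ dist (ctr L p) e.1 := by
  classical
  unfold kept
  rw [Finset.mem_filter]
  constructor
  · exact fun h => h.2
  · intro h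
    refine ⟨?_, h⟩
    have hL' : (1 : ℝ) ≤ L := by exact_mod_cast hL
    have hL0 : (0 : ℝ) < L := by linarith
    have h1 : |(ctr L p).re| ≤ 3 - 1 / (L : ℝ) := (Complex.abs_re_le_norm _).trans h.1
    have h2 : |(ctr L p).im| ≤ 3 - 1 / (L : ℝ) := (Complex.abs_im_le_norm _).trans h.1
    have h3 : (3 - 1 / (L : ℝ)) * L = 3 * L - 1 := by field_simp
    rw [ctr_re, abs_div, abs_of_pos hL0, div_le_iff₀ hL0, h3] at h1
    rw [ctr_im, abs_div, abs_of_pos hL0, div_le_iff₀ hL0, h3] at h2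
    rw [abs_le] at h1 h2
    unfold box
    rw [Finset.mem_product, Finset.mem_Ico, Finset.mem_Ico]
    have e1 : (-(3 * (L : ℤ)) : ℝ) ≤ p.1 := by push_cast; linarith [h1.1]
    have e2 : (p.1 : ℝ) < 3 * (L : ℤ) := by push_cast; linarith [h1.2]
    have e3 : (-(3 * (L : ℤ)) : ℝ) ≤ p.2 := by push_cast; linarith [h2.1]
    have e4 : (p.2 : ℝ) < 3 * (L : ℤ) := by push_cast; linarith [h2.2]
    refine ⟨⟨?_, ?_⟩, ⟨?_, ?_⟩⟩
    · exact_mod_cast e1
    · exact_mod_cast e2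
    · exact_mod_cast e3
    · exact_mod_cast e4

lemma kept_subset_box {L : ℕ} {old : Finset (ℂ × ℝ)} : kept L old ⊆ box L := by
  classical
  unfold kept
  exact Finset.filter_subset _ _

lemma abs_half_int (m : ℤ) : (1 : ℝ) / 2 ≤ |(m : ℝ) + 1 / 2| := by
  rcases le_or_gt 0 m with h | h
  · have : (0 : ℝ) ≤ m := by exact_mod_cast h
    rw [abs_of_nonneg (by linarith)]
    linarith
  · have h' : m ≤ -1 := by omega
    have : (m : ℝ) ≤ -1 := by exact_mod_cast h'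
    rw [abs_of_nonpos (by linarith)]
    linarith

lemma ctr_im_ge {L : ℕ} (hL : 1 ≤ L) (p : ℤ × ℤ) : 1 / (2 * (L : ℝ)) ≤ |(ctr L p).im| := by
  have hL' : (1 : ℝ) ≤ L := by exact_mod_cast hL
  have hL0 : (0 : ℝ) < L := by linarith
  rw [ctr_im, abs_div, abs_of_pos hL0, div_le_div_iff₀ (by positivity) hL0]
  have := abs_half_int p.2
  nlinarith

lemma ctr_injective {L : ℕ} (hL : 1 ≤ L) : Function.Injective (ctr L) := by
  intro p q h
  have hL' : (1 : ℝ) ≤ L := by exact_mod_cast hL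
  have hL0 : (0 : ℝ) < L := by linarith
  have h1 : (ctr L p).re = (ctr L q).re := by rw [h]
  have h2 : (ctr L p).im = (ctr L q).im := by rw [h]
  rw [ctr_re, ctr_re, div_left_inj' hL0.ne', add_left_inj] at h1
  rw [ctr_im, ctr_im, div_left_inj' hL0.ne', add_left_inj] at h2
  exact Prod.ext (by exact_mod_cast h1) (by exact_mod_cast h2)

lemma ctr_dist {L : ℕ} (hL : 1 ≤ L) {p q : ℤ × ℤ} (h : p ≠ q) :
    1 / (L : ℝ) ≤ dist (ctr L p) (ctr L q) := by
  have hL' : (1 : ℝ) ≤ L := by exact_mod_cast hL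
  have hL0 : (0 : ℝ) < L := by linarith
  rw [dist_eq_norm]
  by_cases h1 : p.1 = q.1
  · have h2 : p.2 ≠ q.2 := fun h2 => h (Prod.ext h1 h2)
    refine le_trans ?_ (Complex.abs_im_le_norm _)
    rw [Complex.sub_im, ctr_im, ctr_im, ← sub_div, abs_div, abs_of_pos hL0]
    gcongr
    have h3 : (p.2 : ℝ) + 1 / 2 - (q.2 + 1 / 2) = ((p.2 - q.2 : ℤ) : ℝ) := by push_cast; ring
    rw [h3]
    have h4 : (1 : ℤ) ≤ |p.2 - q.2| := Int.one_le_abs (sub_ne_zero.2 h2)
    exact_mod_cast h4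
  · refine le_trans ?_ (Complex.abs_re_le_norm _)
    rw [Complex.sub_re, ctr_re, ctr_re, ← sub_div, abs_div, abs_of_pos hL0]
    gcongr
    have h3 : (p.1 : ℝ) + 1 / 2 - (q.1 + 1 / 2) = ((p.1 - q.1 : ℤ) : ℝ) := by push_cast; ring
    rw [h3]
    have h4 : (1 : ℤ) ≤ |p.1 - q.1| := Int.one_le_abs (sub_ne_zero.2 h1)
    exact_mod_cast h4

section
variable {L : ℕ → ℕ} {η : ℕ → ℝ}

/-- Basic hypotheses on the parameters. -/
structure Basic (L : ℕ → ℕ) (η : ℕ → ℝ) : Prop where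
  Lpos : ∀ n, 1 ≤ L n
  ηpos : ∀ n, 0 < η n
  ηle : ∀ n, η n ≤ 1 / 8
  Lmono : ∀ n, L n ≤ L (n + 1)

lemma Basic.L1 (h : Basic L η) (n : ℕ) : (1 : ℝ) ≤ L n := by exact_mod_cast h.Lpos n

lemma Basic.L0 (h : Basic L η) (n : ℕ) : (0 : ℝ) < L n := lt_of_lt_of_le one_pos (h.L1 n)

lemma Basic.Lmono' (h : Basic L η) : Monotone L := monotone_nat_of_le_succ h.Lmono

lemma Basic.rho_pos (h : Basic L η) (n : ℕ) : 0 < rho L η n := by
  have := h.L0 n
  have := h.ηpos n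
  unfold rho
  positivity

lemma Basic.rho_le (h : Basic L η) (n : ℕ) : rho L η n ≤ 1 / (8 * (L n : ℝ)) := by
  have h1 := h.L1 n
  have h0 := h.L0 n
  have h2 := h.ηle n
  have h3 := h.ηpos n
  unfold rho
  rw [div_le_div_iff₀ (by positivity) (by positivity)]
  nlinarith [mul_le_mul h2 (le_refl (8 * (L n : ℝ))) (by positivity) (by norm_num)]

lemma discs_succ (n : ℕ) : discs L η (n + 1) = discs L η n ∪
    newD (L n) (rho L η n) (discs L η n) := by
  classical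
  rw [discs]

lemma discs_mono : Monotone (discs L η) := by
  apply monotone_nat_of_le_succ
  intro n
  rw [discs_succ]
  exact Finset.subset_union_left

lemma mem_discs {N : ℕ} {d : ℂ × ℝ} (hd : d ∈ discs L η N) :
    ∃ m < N, d ∈ newD (L m) (rho L η m) (discs L η m) := by
  induction N with
  | zero => simp [discs] at hd
  | succ N ih =>
    rw [discs_succ, Finset.mem_union] at hd
    rcases hd with hd | hd
    · obtain ⟨m, hm, h⟩ := ih hd
      exact ⟨m, by omega, h⟩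
    · exact ⟨N, by omega, hd⟩

lemma newD_disjoint (h : Basic L η) (n : ℕ) :
    Disjoint (discs L η n) (newD (L n) (rho L η n) (discs L η n)) := by
  rw [Finset.disjoint_left]
  intro d hd hd'
  obtain ⟨p, hp, hpd⟩ := mem_newD.1 hd'
  have h1 := ((mem_kept (h.Lpos n)).1 hp).2 d hd
  obtain ⟨m, -, hm⟩ := mem_discs hd
  obtain ⟨p', hp', hpd'⟩ := mem_newD.1 hm
  have h2 : d.1 = ctr (L n) p := by rw [← hpd]
  have h3 : d.2 = rho L η m := by rw [← hpd']
  rw [← h2, dist_self, h3] at h1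
  have := h.rho_pos m
  have := h.L0 n
  have : 0 < 1 / (L n : ℝ) := by positivity
  linarith

/-- Data of a disc from stage `m`. -/
lemma disc_data (h : Basic L η) {m : ℕ} {d : ℂ × ℝ}
    (hd : d ∈ newD (L m) (rho L η m) (discs L η m)) :
    d.2 = rho L η m ∧ ‖d.1‖ ≤ 3 - 1 / (L m : ℝ) ∧ 1 / (2 * (L m : ℝ)) ≤ |d.1.im| := by
  obtain ⟨p, hp, hpd⟩ := mem_newD.1 hd
  have h1 := ((mem_kept (h.Lpos m)).1 hp).1
  have h2 := ctr_im_ge (h.Lpos m) p
  rw [← hpd]
  exact ⟨rfl, h1, h2⟩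

lemma sep_succ (h : Basic L η) (N : ℕ) : ∀ d ∈ discs L η (N + 1), ∀ e ∈ discs L η (N + 1),
    d ≠ e → d.2 + e.2 + 1 / (2 * (L N : ℝ)) ≤ dist d.1 e.1 := by
  induction N with
  | zero =>
    intro d hd e he hde
    have h0 : discs L η 0 = ∅ := rfl
    rw [discs_succ, h0, Finset.empty_union] at hd he
    obtain ⟨p, hp, hpd⟩ := mem_newD.1 hd
    obtain ⟨q, hq, hqe⟩ := mem_newD.1 he
    have hpq : p ≠ q := by
      rintro rfl
      exact hde (hpd.symm.trans hqe)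
    have h1 := ctr_dist (h.Lpos 0) hpq
    have h2 := h.rho_le 0
    have hL := h.L0 0
    rw [← hpd, ← hqe]
    simp only
    have h3 : 1 / (8 * (L 0 : ℝ)) + 1 / (8 * (L 0 : ℝ)) + 1 / (2 * (L 0 : ℝ)) ≤ 1 / (L 0 : ℝ) := by
      have : 1 / (8 * (L 0 : ℝ)) + 1 / (8 * (L 0 : ℝ)) + 1 / (2 * (L 0 : ℝ))
          = (3 / 4) * (1 / (L 0 : ℝ)) := by field_simp; norm_num
      rw [this]
      have : 0 < 1 / (L 0 : ℝ) := by positivity
      linarith
    linarith
  | succ N ih =>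
    -- new-old separation
    have hno : ∀ d ∈ newD (L (N + 1)) (rho L η (N + 1)) (discs L η (N + 1)),
        ∀ e ∈ discs L η (N + 1), d.2 + e.2 + 1 / (2 * (L (N + 1) : ℝ)) ≤ dist d.1 e.1 := by
      intro d hd e he
      obtain ⟨p, hp, hpd⟩ := mem_newD.1 hd
      have h1 := ((mem_kept (h.Lpos (N + 1))).1 hp).2 e he
      have h2 := h.rho_le (N + 1)
      have hL := h.L0 (N + 1)
      rw [← hpd]
      simp only
      have h3 : 1 / (8 * (L (N + 1) : ℝ)) + 1 / (2 * (L (N + 1) : ℝ)) ≤ 1 / (L (N + 1) : ℝ) := by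
        have : 1 / (8 * (L (N + 1) : ℝ)) + 1 / (2 * (L (N + 1) : ℝ))
            = (5 / 8) * (1 / (L (N + 1) : ℝ)) := by field_simp; norm_num
        rw [this]
        have : 0 < 1 / (L (N + 1) : ℝ) := by positivity
        linarith
      linarith
    intro d hd e he hde
    rw [discs_succ, Finset.mem_union] at hd he
    rcases hd with hd | hd
    · rcases he with he | he
      · have h1 := ih d hd e he hde
        have h2 : (L N : ℝ) ≤ L (N + 1) := by exact_mod_cast h.Lmono N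
        have h3 := h.L0 N
        have h4 : 1 / (2 * (L (N + 1) : ℝ)) ≤ 1 / (2 * (L N : ℝ)) := by
          apply one_div_le_one_div_of_le (by positivity)
          linarith
        linarith
      · have h1 := hno e he d hd
        rw [dist_comm]
        linarith
    · rcases he with he | he
      · exact hno d hd e he
      · obtain ⟨p, hp, hpd⟩ := mem_newD.1 hd
        obtain ⟨q, hq, hqe⟩ := mem_newD.1 he
        have hpq : p ≠ q := by
          rintro rfl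
          exact hde (hpd.symm.trans hqe)
        have h1 := ctr_dist (h.Lpos (N + 1)) hpq
        have h2 := h.rho_le (N + 1)
        have hL := h.L0 (N + 1)
        rw [← hpd, ← hqe]
        simp only
        have h3 : 1 / (8 * (L (N + 1) : ℝ)) + 1 / (8 * (L (N + 1) : ℝ))
            + 1 / (2 * (L (N + 1) : ℝ)) ≤ 1 / (L (N + 1) : ℝ) := by
          have : 1 / (8 * (L (N + 1) : ℝ)) + 1 / (8 * (L (N + 1) : ℝ)) + 1 / (2 * (L (N + 1) : ℝ))
              = (3 / 4) * (1 / (L (N + 1) : ℝ)) := by field_simp; norm_num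
          rw [this]
          have : 0 < 1 / (L (N + 1) : ℝ) := by positivity
          linarith
        linarith

lemma good_discs (h : Basic L η) (N : ℕ) : Good (discs L η N) := by
  refine ⟨?_, ?_, ?_⟩
  · intro d hd
    obtain ⟨m, -, hm⟩ := mem_discs hd
    rw [(disc_data h hm).1]
    exact h.rho_pos m
  · intro d hd
    obtain ⟨m, -, hm⟩ := mem_discs hd
    obtain ⟨h1, h2, -⟩ := disc_data h hm
    have h3 := h.rho_le m
    have hL := h.L0 m
    have h4 : 1 / (8 * (L m : ℝ)) = (1 / 8) * (1 / (L m : ℝ)) := by field_simp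
    have : 0 < 1 / (L m : ℝ) := by positivity
    rw [h1]
    linarith
  · intro d hd e he hde
    have h1 := sep_succ h N d (discs_mono (Nat.le_succ N) hd) e (discs_mono (Nat.le_succ N) he) hde
    have hL := h.L0 N
    have : 0 < 1 / (2 * (L N : ℝ)) := by positivity
    linarith

lemma XX_subset_XD (N : ℕ) : XX L η ⊆ XD (discs L η N) := by
  intro z hz
  refine ⟨hz.1, fun hz2 => hz.2 ?_⟩
  exact mem_iUnion.2 ⟨N, hz2⟩

lemma Gam_mono {D D' : Finset (ℂ × ℝ)} (h : D ⊆ D') : Gam D ⊆ Gam D' := by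
  intro z hz
  rcases hz with hz | hz
  · exact Or.inl hz
  · right
    simp only [mem_iUnion] at hz ⊢
    obtain ⟨d, hd, hzd⟩ := hz
    exact ⟨d, h hd, hzd⟩

lemma XD_anti {D D' : Finset (ℂ × ℝ)} (h : D ⊆ D') : XD D' ⊆ XD D := by
  intro z hz
  refine ⟨hz.1, fun hz2 => hz.2 ?_⟩
  simp only [mem_iUnion] at hz2 ⊢
  obtain ⟨d, hd, hzd⟩ := hz2
  exact ⟨d, h hd, hzd⟩

lemma Gam_subset_XX (h : Basic L η) (N : ℕ) : Gam (discs L η N) ⊆ XX L η := by
  intro z hz
  refine ⟨(Gam_subset_XD (good_discs h N) hz).1, ?_⟩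
  intro hz2
  obtain ⟨M, hM⟩ := mem_iUnion.1 hz2
  have h1 : z ∈ Gam (discs L η (max N M)) := Gam_mono (discs_mono (le_max_left N M)) hz
  have h2 := Gam_subset_XD (good_discs h (max N M)) h1
  apply h2.2
  simp only [mem_iUnion] at hM ⊢
  obtain ⟨d, hd, hzd⟩ := hM
  exact ⟨d, discs_mono (le_max_right N M) hd, hzd⟩

lemma isCompact_XX : IsCompact (XX L η) := by
  apply (isCompact_closedBall (0 : ℂ) 3).diff
  exact isOpen_iUnion fun n => isOpen_iUnion fun d => isOpen_iUnion fun _ => isOpen_ball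

lemma seg_mem_XDo (h : Basic L η) (N : ℕ) {t : ℝ} (h0 : 0 ≤ t) (h2 : t ≤ 2) :
    (t : ℂ) ∈ XDo (discs L η N) := by
  refine ⟨?_, ?_⟩
  · rw [mem_ball, dist_zero_right, Complex.norm_real, Real.norm_of_nonneg h0]
    linarith
  · simp only [mem_iUnion, not_exists, mem_closedBall, not_le]
    intro d hd
    obtain ⟨m, -, hm⟩ := mem_discs hd
    obtain ⟨h1, -, h3⟩ := disc_data h hm
    have h4 := h.rho_le m
    have hL := h.L0 m
    have h5 : |d.1.im| ≤ dist (t : ℂ) d.1 := by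
      rw [dist_comm, dist_eq_norm]
      have := Complex.abs_im_le_norm (d.1 - t)
      simpa using this
    have h6 : 1 / (8 * (L m : ℝ)) < 1 / (2 * (L m : ℝ)) := by
      apply one_div_lt_one_div_of_lt (by positivity)
      linarith
    rw [h1]
    linarith

lemma seg_mem_XX (h : Basic L η) {t : ℝ} (h0 : 0 ≤ t) (h2 : t ≤ 2) : (t : ℂ) ∈ XX L η := by
  refine ⟨(XDo_subset (good_discs h 0) (seg_mem_XDo h 0 h0 h2)).1.1, ?_⟩
  intro hz2
  obtain ⟨M, hM⟩ := mem_iUnion.1 hz2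
  exact (XDo_subset (good_discs h M) (seg_mem_XDo h M h0 h2)).1.2 hM

end

end Pool.Agent.Lib.MP_7cb37e_an
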