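import Pool.Agent.Lib.MP_7cb37e_an.Discs

set_option autoImplicit false

namespace Pool.Agent.Lib.MP_7cb37e_an

open Complex Metric Set

/-- The double sum that diverges logarithmically. -/
noncomputable def TT (k : ℕ) : ℝ :=
  ∑ i ∈ Finset.range k, ∑ j ∈ Finset.range k, 1 / (((i : ℝ) + 3) ^ 2 + ((j : ℝ) + 3) ^ 2)

lemma TT_unbounded (K : ℝ) : ∃ k : ℕ, K ≤ TT k := by
  have h1 : ∀ k : ℕ, (1 / 18) * ∑ i ∈ Finset.range k, 1 / ((i : ℝ) + 1) ≤ TT k := by
    intro k
    unfold TT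
    rw [Finset.mul_sum]
    apply Finset.sum_le_sum
    intro i hi
    have hik : i + 1 ≤ k := Finset.mem_range.1 hi
    have hi0 : (0 : ℝ) ≤ i := Nat.cast_nonneg i
    calc (1 / 18) * (1 / ((i : ℝ) + 1))
        ≤ ((i : ℝ) + 1) * (1 / (((i : ℝ) + 3) ^ 2 + ((i : ℝ) + 3) ^ 2)) := by
          rw [mul_one_div, mul_one_div, div_le_div_iff₀ (by positivity) (by positivity)]
          nlinarith
      _ = ∑ j ∈ Finset.range (i + 1), 1 / (((i : ℝ) + 3) ^ 2 + ((i : ℝ) + 3) ^ 2) := by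
          rw [Finset.sum_const, Finset.card_range, nsmul_eq_mul]
          push_cast
          ring
      _ ≤ ∑ j ∈ Finset.range (i + 1), 1 / (((i : ℝ) + 3) ^ 2 + ((j : ℝ) + 3) ^ 2) := by
          apply Finset.sum_le_sum
          intro j hj
          have hji : (j : ℝ) ≤ i := by
            have := Finset.mem_range.1 hj
            exact_mod_cast (by omega : j ≤ i)
          have hj0 : (0 : ℝ) ≤ j := Nat.cast_nonneg j
          apply one_div_le_one_div_of_le (by positivity)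
          gcongr
      _ ≤ ∑ j ∈ Finset.range k, 1 / (((i : ℝ) + 3) ^ 2 + ((j : ℝ) + 3) ^ 2) := by
          apply Finset.sum_le_sum_of_subset_of_nonneg
          · intro j hj
            rw [Finset.mem_range] at hj ⊢
            omega
          · intro j _ _
            positivity
  have h2 := Real.tendsto_sum_range_one_div_nat_succ_atTop
  obtain ⟨k, hk⟩ := (h2.eventually_ge_atTop (18 * K)).exists
  refine ⟨k, ?_⟩
  have := h1 k
  linarith

lemma coord {L : ℕ} (hL : 1 ≤ L) (v : ℝ) (σ : ℤ) (hσ : σ = 1 ∨ σ = -1) (i : ℕ) :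
    1 / (L : ℝ) ≤ (σ : ℝ) * (((((⌊v * L⌋ + σ * (i + 2) : ℤ) : ℝ)) + 1 / 2) / L - v) ∧
    |((((⌊v * L⌋ + σ * (i + 2) : ℤ) : ℝ)) + 1 / 2) / L - v| ≤ ((i : ℝ) + 3) / L := by
  have hL' : (1 : ℝ) ≤ L := by exact_mod_cast hL
  have hL0 : (0 : ℝ) < L := by linarith
  have hi0 : (0 : ℝ) ≤ i := Nat.cast_nonneg i
  have hf1 := Int.floor_le (v * L)
  have hf2 := Int.lt_floor_add_one (v * L)
  set k : ℤ := ⌊v * L⌋ with hk
  have e1 : (((k + σ * (i + 2) : ℤ) : ℝ) + 1 / 2) / L - v =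
      ((σ : ℝ) * (i + 2) + (1 / 2 - (v * L - k))) / L := by
    push_cast
    field_simp
    ring
  rw [e1]
  rcases hσ with rfl | rfl
  · constructor
    · rw [Int.cast_one, one_mul, one_mul]
      gcongr
      linarith
    · rw [Int.cast_one, one_mul, abs_div, abs_of_pos hL0]
      gcongr
      rw [abs_le]
      constructor <;> linarith
  · constructor
    · have e2 : ((-1 : ℤ) : ℝ) * ((((-1 : ℤ) : ℝ) * (i + 2) + (1 / 2 - (v * L - k))) / L) =
          ((i : ℝ) + 2 - (1 / 2 - (v * L - k))) / L := by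
        push_cast
        ring
      rw [e2]
      gcongr
      linarith
    · rw [abs_div, abs_of_pos hL0]
      gcongr
      push_cast
      rw [abs_le]
      constructor <;> linarith

/-- moving away from a centre -/
lemma away {y e a : ℂ} {σ₁ σ₂ δ : ℝ} (h1 : σ₁ ^ 2 = 1) (h2 : σ₂ ^ 2 = 1) (hδ : 0 ≤ δ)
    (hu : 0 ≤ σ₁ * (y.re - e.re)) (hv : 0 ≤ σ₂ * (y.im - e.im))
    (hs : δ ≤ σ₁ * (a.re - y.re)) (ht : δ ≤ σ₂ * (a.im - y.im)) :
    dist y e + δ ≤ dist a e := by
  set u := σ₁ * (y.re - e.re) with hu'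
  set v := σ₂ * (y.im - e.im) with hv'
  set s := σ₁ * (a.re - y.re) with hs'
  set t := σ₂ * (a.im - y.im) with ht'
  have hye : dist y e ^ 2 = u ^ 2 + v ^ 2 := by
    rw [dist_eq_norm, Complex.sq_norm, Complex.normSq_apply, Complex.sub_re, Complex.sub_im]
    have e1 : u ^ 2 = (y.re - e.re) ^ 2 := by rw [hu', mul_pow, h1, one_mul]
    have e2 : v ^ 2 = (y.im - e.im) ^ 2 := by rw [hv', mul_pow, h2, one_mul]
    rw [e1, e2]; ring
  have hae : dist a e ^ 2 = (u + s) ^ 2 + (v + t) ^ 2 := by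
    rw [dist_eq_norm, Complex.sq_norm, Complex.normSq_apply, Complex.sub_re, Complex.sub_im]
    have e1 : (u + s) ^ 2 = (a.re - e.re) ^ 2 := by
      rw [hu', hs']
      calc (σ₁ * (y.re - e.re) + σ₁ * (a.re - y.re)) ^ 2 = σ₁ ^ 2 * (a.re - e.re) ^ 2 := by ring
        _ = _ := by rw [h1, one_mul]
    have e2 : (v + t) ^ 2 = (a.im - e.im) ^ 2 := by
      rw [hv', ht']
      calc (σ₂ * (y.im - e.im) + σ₂ * (a.im - y.im)) ^ 2 = σ₂ ^ 2 * (a.im - e.im) ^ 2 := by ring
        _ = _ := by rw [h2, one_mul]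
    rw [e1, e2]; ring
  have hr : dist y e ≤ u + v := by
    have h3 : dist y e ^ 2 ≤ (u + v) ^ 2 := by rw [hye]; nlinarith [mul_nonneg hu hv]
    exact le_of_sq_le_sq h3 (by linarith)
  apply le_of_sq_le_sq _ dist_nonneg
  have hd := dist_nonneg (x := y) (y := e)
  nlinarith [mul_le_mul_of_nonneg_left hs hu, mul_le_mul_of_nonneg_left ht hv,
    mul_le_mul_of_nonneg_left hr hδ, mul_self_nonneg (s - δ), mul_self_nonneg (t - δ),
    mul_nonneg hδ (sub_nonneg.2 hs), mul_nonneg hδ (sub_nonneg.2 ht), mul_self_nonneg δ]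

/-- the elementary sup bound for separated poles -/
lemma sup_bound {A : Finset ℂ} {z : ℂ} {ρ δ : ℝ} (hρ : 0 < ρ) (hδ : 0 < δ)
    (hsep : ∀ a ∈ A, ∀ b ∈ A, a ≠ b → δ ≤ dist a b) (hz : ∀ a ∈ A, ρ ≤ dist z a) :
    ∑ a ∈ A, ρ / dist z a ≤ 1 + A.card * (2 * ρ / δ) := by
  classical
  by_cases h : ∃ a0 ∈ A, dist z a0 < δ / 2
  · obtain ⟨a0, ha0, h0⟩ := h
    rw [← Finset.add_sum_erase A _ ha0]
    have h1 : ρ / dist z a0 ≤ 1 := by
      rw [div_le_one (lt_of_lt_of_le hρ (hz a0 ha0))]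
      exact hz a0 ha0
    have h2 : ∑ a ∈ A.erase a0, ρ / dist z a ≤ ∑ a ∈ A.erase a0, 2 * ρ / δ := by
      apply Finset.sum_le_sum
      intro a ha
      have hne : a ≠ a0 := Finset.ne_of_mem_erase ha
      have hsa := hsep a (Finset.mem_of_mem_erase ha) a0 ha0 hne
      have h3 : dist a a0 ≤ dist z a + dist z a0 := by
        rw [dist_comm z a]; exact dist_triangle _ _ _
      have h4 : δ / 2 ≤ dist z a := by linarith
      calc ρ / dist z a ≤ ρ / (δ / 2) := by gcongr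
        _ = 2 * ρ / δ := by field_simp
    rw [Finset.sum_const, nsmul_eq_mul] at h2
    have h5 : ((A.erase a0).card : ℝ) ≤ A.card := by
      exact_mod_cast Finset.card_le_card (Finset.erase_subset _ _)
    have h6 : ((A.erase a0).card : ℝ) * (2 * ρ / δ) ≤ A.card * (2 * ρ / δ) := by gcongr
    linarith
  · push Not at h
    have h2 : ∑ a ∈ A, ρ / dist z a ≤ ∑ a ∈ A, 2 * ρ / δ := by
      apply Finset.sum_le_sum
      intro a ha
      have h4 := h a ha
      calc ρ / dist z a ≤ ρ / (δ / 2) := by gcongr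
        _ = 2 * ρ / δ := by field_simp
    rw [Finset.sum_const, nsmul_eq_mul] at h2
    linarith

section
variable {L : ℕ → ℕ} {η : ℕ → ℝ} {S : ℕ → ℕ}

lemma exists_poles_interior (h : Basic L η)
    (hL : ∀ m, 4 * (2 * S (m + 1) + 5) * L m ≤ L (m + 1))
    (h2 : ∀ n, 2 * η n * (S n : ℝ) ^ 2 ≤ L n)
    (hT : ∀ n : ℕ, (n : ℝ) ≤ η n * TT (S n))
    {y : ℂ} (hy : y ∈ XX L η) (hy3 : ‖y‖ < 3) (K : ℝ) :
    ∃ (A : Finset ℂ) (c : ℂ → ℂ), (∀ a ∈ A, a ∉ XX L η) ∧
      (∀ z ∈ XX L η, ‖∑ a ∈ A, c a * (z - a)⁻¹‖ ≤ 2) ∧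
      K ≤ ‖∑ a ∈ A, c a * (y - a)⁻¹ ^ 2‖ := by
  classical
  -- growth of L
  have hgrow : ∀ n : ℕ, (n : ℝ) + 1 ≤ L n := by
    intro n
    induction n with
    | zero => simpa using h.L1 0
    | succ n ih =>
      have h3 := hL n
      have h4 : L n + L n ≤ 4 * (2 * S (n + 1) + 5) * L n := by nlinarith
      have h5 : ((L n : ℝ) + L n) ≤ L (n + 1) := by exact_mod_cast h4.trans h3
      have h6 := h.L1 n
      push_cast
      linarith
  -- choice of the stage
  obtain ⟨m, hm⟩ : ∃ m : ℕ, K ≤ (m : ℝ) + 1 ∧ 1 / (4 * (L m : ℝ)) ≤ 3 - ‖y‖ := by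
    obtain ⟨m, hm⟩ := exists_nat_ge (max K (1 / (3 - ‖y‖)))
    have hpos : 0 < 3 - ‖y‖ := by linarith
    refine ⟨m, ?_, ?_⟩
    · linarith [le_max_left K (1 / (3 - ‖y‖))]
    · have h3 : 1 / (3 - ‖y‖) ≤ m := (le_max_right _ _).trans hm
      have h4 := hgrow m
      have h5 := h.L0 m
      rw [div_le_iff₀ hpos] at h3
      rw [div_le_iff₀ (by positivity)]
      nlinarith
  obtain ⟨hmK, hmy⟩ := hm
  set n := m + 1 with hn
  have hLn1 := h.L1 n
  have hLn0 := h.L0 n
  have hLm0 := h.L0 m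
  have hρ := h.rho_pos n
  have hcond : (4 * (2 * (S n : ℝ) + 5) * L m) ≤ L n := by exact_mod_cast hL m
  -- key inequality for the scales
  have hscale : (2 * ((S n : ℝ) + 2) + 1) / L n ≤ 1 / (4 * (L m : ℝ)) := by
    rw [div_le_div_iff₀ hLn0 (by positivity)]
    linarith
  -- choice of signs
  obtain ⟨σ₁, σ₂, hσ₁, hσ₂, hσ⟩ : ∃ σ₁ σ₂ : ℤ, (σ₁ = 1 ∨ σ₁ = -1) ∧ (σ₂ = 1 ∨ σ₂ = -1) ∧
      ∀ e ∈ discs L η n, dist y e.1 < e.2 + 1 / (4 * (L m : ℝ)) →
        0 ≤ (σ₁ : ℝ) * (y.re - e.1.re) ∧ 0 ≤ (σ₂ : ℝ) * (y.im - e.1.im) := by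
    by_cases hex : ∃ e ∈ discs L η n, dist y e.1 < e.2 + 1 / (4 * (L m : ℝ))
    · obtain ⟨e, he, hye⟩ := hex
      have huniq : ∀ e' ∈ discs L η n, dist y e'.1 < e'.2 + 1 / (4 * (L m : ℝ)) → e' = e := by
        intro e' he' hye'
        by_contra hne
        have h3 := sep_succ h m e' he' e he hne
        have h4 : dist e'.1 e.1 ≤ dist y e'.1 + dist y e.1 := by
          rw [dist_comm y e'.1]; exact dist_triangle _ _ _
        have h5 : 1 / (2 * (L m : ℝ)) = 1 / (4 * (L m : ℝ)) + 1 / (4 * (L m : ℝ)) := by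
          field_simp; norm_num
        linarith
      refine ⟨if 0 ≤ y.re - e.1.re then 1 else -1, if 0 ≤ y.im - e.1.im then 1 else -1, ?_, ?_, ?_⟩
      · split_ifs <;> simp
      · split_ifs <;> simp
      · intro e' he' hye'
        rw [huniq e' he' hye']
        constructor
        · split_ifs with h6
          · simpa using h6
          · push Not at h6
            push_cast
            linarith
        · split_ifs with h6
          · simpa using h6
          · push Not at h6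
            push_cast
            linarith
    · push Not at hex
      refine ⟨1, 1, Or.inl rfl, Or.inl rfl, ?_⟩
      intro e he hye
      exact absurd hye (not_lt.2 (hex e he))
  -- the lattice points
  set idx : ℕ × ℕ → ℤ × ℤ := fun ij =>
    (⌊y.re * L n⌋ + σ₁ * (ij.1 + 2), ⌊y.im * L n⌋ + σ₂ * (ij.2 + 2)) with hidx
  set pt : ℕ × ℕ → ℂ := fun ij => ctr (L n) (idx ij) with hpt
  have hσ₁' : ((σ₁ : ℝ)) ^ 2 = 1 := by rcases hσ₁ with rfl | rfl <;> simp
  have hσ₂' : ((σ₂ : ℝ)) ^ 2 = 1 := by rcases hσ₂ with rfl | rfl <;> simp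
  have hre : ∀ ij : ℕ × ℕ, 1 / (L n : ℝ) ≤ (σ₁ : ℝ) * ((pt ij).re - y.re) ∧
      |(pt ij).re - y.re| ≤ ((ij.1 : ℝ) + 3) / L n := by
    intro ij
    exact coord (h.Lpos n) y.re σ₁ hσ₁ ij.1
  have him : ∀ ij : ℕ × ℕ, 1 / (L n : ℝ) ≤ (σ₂ : ℝ) * ((pt ij).im - y.im) ∧
      |(pt ij).im - y.im| ≤ ((ij.2 : ℝ) + 3) / L n := by
    intro ij
    exact coord (h.Lpos n) y.im σ₂ hσ₂ ij.2
  have hinj : Function.Injective pt := by
    intro ij kl hkl
    have h3 := ctr_injective (h.Lpos n) hkl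
    have h4 : σ₁ * ((ij.1 : ℤ) + 2) = σ₁ * (kl.1 + 2) := by
      have := congrArg Prod.fst h3
      simpa [hidx] using this
    have h5 : σ₂ * ((ij.2 : ℤ) + 2) = σ₂ * (kl.2 + 2) := by
      have := congrArg Prod.snd h3
      simpa [hidx] using this
    have hs1 : σ₁ ≠ 0 := by rcases hσ₁ with rfl | rfl <;> norm_num
    have hs2 : σ₂ ≠ 0 := by rcases hσ₂ with rfl | rfl <;> norm_num
    have h6 := mul_left_cancel₀ hs1 h4
    have h7 := mul_left_cancel₀ hs2 h5
    exact Prod.ext (by omega) (by omega)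
  -- distance bounds
  have hdist : ∀ ij ∈ Finset.range (S n) ×ˢ Finset.range (S n),
      dist (pt ij) y ≤ 2 * ((S n : ℝ) + 2) / L n := by
    intro ij hij
    rw [Finset.mem_product, Finset.mem_range, Finset.mem_range] at hij
    have h3 : (ij.1 : ℝ) + 1 ≤ S n := by exact_mod_cast hij.1
    have h4 : (ij.2 : ℝ) + 1 ≤ S n := by exact_mod_cast hij.2
    rw [dist_eq_norm]
    refine (Complex.norm_le_abs_re_add_abs_im _).trans ?_
    rw [Complex.sub_re, Complex.sub_im]
    calc |(pt ij).re - y.re| + |(pt ij).im - y.im|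
        ≤ ((ij.1 : ℝ) + 3) / L n + ((ij.2 : ℝ) + 3) / L n := add_le_add (hre ij).2 (him ij).2
      _ = ((ij.1 : ℝ) + 3 + (ij.2 + 3)) / L n := by ring
      _ ≤ 2 * ((S n : ℝ) + 2) / L n := by
        gcongr
        linarith
  have hsplit : (2 * ((S n : ℝ) + 2) + 1) / L n = 2 * ((S n : ℝ) + 2) / L n + 1 / L n := by ring
  rw [hsplit] at hscale
  -- admissibility
  have hkept : ∀ ij ∈ Finset.range (S n) ×ˢ Finset.range (S n),
      idx ij ∈ kept (L n) (discs L η n) := by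
    intro ij hij
    rw [mem_kept (h.Lpos n)]
    have hd := hdist ij hij
    constructor
    · have h3 : ‖pt ij‖ ≤ ‖y‖ + dist (pt ij) y := by
        rw [dist_eq_norm]
        calc ‖pt ij‖ = ‖y + (pt ij - y)‖ := by ring_nf
          _ ≤ _ := norm_add_le _ _
      have h4 : ‖ctr (L n) (idx ij)‖ = ‖pt ij‖ := rfl
      rw [h4]
      linarith
    · intro e he
      by_cases hnear : dist y e.1 < e.2 + 1 / (4 * (L m : ℝ))
      · obtain ⟨hu, hv⟩ := hσ e he hnear
        have h3 := away hσ₁' hσ₂' (by positivity) hu hv (hre ij).1 (him ij).1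
        have h4 : e.2 ≤ dist y e.1 := by
          by_contra hlt
          push Not at hlt
          apply hy.2
          simp only [mem_iUnion]
          exact ⟨n, e, he, hlt⟩
        have h5 : dist (ctr (L n) (idx ij)) e.1 = dist (pt ij) e.1 := rfl
        rw [h5]
        linarith
      · push Not at hnear
        have h3 : dist y e.1 ≤ dist (pt ij) y + dist (pt ij) e.1 := by
          rw [dist_comm (pt ij) y]; exact dist_triangle _ _ _
        have h5 : dist (ctr (L n) (idx ij)) e.1 = dist (pt ij) e.1 := rfl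
        rw [h5]
        linarith
  have hmemD : ∀ ij ∈ Finset.range (S n) ×ˢ Finset.range (S n),
      (pt ij, rho L η n) ∈ discs L η (n + 1) := by
    intro ij hij
    rw [discs_succ, Finset.mem_union]
    exact Or.inr (mem_newD.2 ⟨idx ij, hkept ij hij, rfl⟩)
  have hfar : ∀ ij ∈ Finset.range (S n) ×ˢ Finset.range (S n), ∀ z ∈ XX L η,
      rho L η n ≤ dist z (pt ij) := by
    intro ij hij z hz
    by_contra hlt
    push Not at hlt
    apply hz.2
    simp only [mem_iUnion]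
    exact ⟨n + 1, (pt ij, rho L η n), hmemD ij hij, hlt⟩
  set A : Finset ℂ := (Finset.range (S n) ×ˢ Finset.range (S n)).image pt with hA
  have hcardA : (A.card : ℝ) ≤ (S n : ℝ) ^ 2 := by
    have h3 : A.card ≤ (Finset.range (S n) ×ˢ Finset.range (S n)).card := Finset.card_image_le
    rw [Finset.card_product, Finset.card_range] at h3
    have h4 : (A.card : ℝ) ≤ (S n : ℝ) * S n := by exact_mod_cast h3
    nlinarith
  refine ⟨A, fun a => (rho L η n : ℂ) * ((y - a) ^ 2 / ((‖y - a‖ ^ 2 : ℝ) : ℂ)), ?_, ?_, ?_⟩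
  · intro a ha haX
    obtain ⟨ij, hij, rfl⟩ := Finset.mem_image.1 ha
    have := hfar ij hij _ haX
    rw [dist_self] at this
    linarith
  · intro z hz
    refine (norm_sum_le _ _).trans ?_
    have h3 : ∀ a ∈ A, ‖(rho L η n : ℂ) * ((y - a) ^ 2 / ((‖y - a‖ ^ 2 : ℝ) : ℂ)) * (z - a)⁻¹‖ ≤
        rho L η n / dist z a := by
      intro a ha
      rw [norm_mul, norm_mul, norm_div, norm_pow, norm_inv, Complex.norm_real, Complex.norm_real,
        Real.norm_of_nonneg hρ.le, Real.norm_of_nonneg (by positivity), dist_eq_norm]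
      have h4 : ‖y - a‖ ^ 2 / ‖y - a‖ ^ 2 ≤ 1 := div_self_le_one _
      calc rho L η n * (‖y - a‖ ^ 2 / ‖y - a‖ ^ 2) * ‖z - a‖⁻¹ ≤ rho L η n * 1 * ‖z - a‖⁻¹ := by
            gcongr
        _ = _ := by rw [mul_one, div_eq_mul_inv]
    refine (Finset.sum_le_sum h3).trans ?_
    have h5 := sup_bound (A := A) (z := z) (ρ := rho L η n) (δ := 1 / (L n : ℝ)) hρ (by positivity)
      (by
        intro a ha b hb hab
        obtain ⟨ij, hij, rfl⟩ := Finset.mem_image.1 ha
        obtain ⟨kl, hkl, rfl⟩ := Finset.mem_image.1 hb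
        apply ctr_dist (h.Lpos n)
        rintro heq
        apply hab
        show ctr (L n) (idx ij) = ctr (L n) (idx kl)
        rw [heq])
      (by
        intro a ha
        obtain ⟨ij, hij, rfl⟩ := Finset.mem_image.1 ha
        exact hfar ij hij z hz)
    refine h5.trans ?_
    have h6 : 2 * rho L η n / (1 / (L n : ℝ)) = 2 * η n / L n := by
      unfold rho
      field_simp
    rw [h6]
    have h7 : (A.card : ℝ) * (2 * η n / L n) ≤ 1 := by
      have hη := h.ηpos n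
      calc (A.card : ℝ) * (2 * η n / L n) ≤ (S n : ℝ) ^ 2 * (2 * η n / L n) := by gcongr
        _ = (2 * η n * (S n : ℝ) ^ 2) / L n := by ring
        _ ≤ 1 := by
          rw [div_le_one hLn0]
          exact h2 n
    linarith
  · -- lower bound
    have h3 : ∑ a ∈ A, (rho L η n : ℂ) * ((y - a) ^ 2 / ((‖y - a‖ ^ 2 : ℝ) : ℂ)) * (y - a)⁻¹ ^ 2 =
        ((∑ a ∈ A, rho L η n / ‖y - a‖ ^ 2 : ℝ) : ℂ) := by
      rw [Complex.ofReal_sum]
      apply Finset.sum_congr rfl
      intro a ha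
      obtain ⟨ij, hij, rfl⟩ := Finset.mem_image.1 ha
      have h4 := hfar ij hij y hy
      have hne : y - pt ij ≠ 0 := by
        intro h0
        rw [dist_eq_norm, h0, norm_zero] at h4
        linarith
      push_cast
      field_simp
    rw [h3, Complex.norm_real]
    refine le_trans ?_ (le_abs_self _)
    rw [hA, Finset.sum_image (fun a _ b _ hab => hinj hab)]
    have h4 : ∀ ij ∈ Finset.range (S n) ×ˢ Finset.range (S n),
        η n * (1 / (((ij.1 : ℝ) + 3) ^ 2 + ((ij.2 : ℝ) + 3) ^ 2)) ≤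
          rho L η n / ‖y - pt ij‖ ^ 2 := by
      intro ij hij
      have h5 : ‖y - pt ij‖ ^ 2 ≤ (((ij.1 : ℝ) + 3) ^ 2 + ((ij.2 : ℝ) + 3) ^ 2) / (L n : ℝ) ^ 2 := by
        rw [norm_sub_rev, Complex.sq_norm, Complex.normSq_apply, Complex.sub_re, Complex.sub_im]
        have e1 : ((pt ij).re - y.re) ^ 2 ≤ (((ij.1 : ℝ) + 3) / L n) ^ 2 := by
          rw [← sq_abs]
          have := (hre ij).2
          gcongr
        have e2 : ((pt ij).im - y.im) ^ 2 ≤ (((ij.2 : ℝ) + 3) / L n) ^ 2 := by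
          rw [← sq_abs]
          have := (him ij).2
          gcongr
        rw [add_div, ← div_pow, ← div_pow]
        nlinarith
      have h6 := hfar ij hij y hy
      have h7 : 0 < ‖y - pt ij‖ ^ 2 := by
        rw [dist_eq_norm] at h6
        have : 0 < ‖y - pt ij‖ := lt_of_lt_of_le hρ h6
        positivity
      calc η n * (1 / (((ij.1 : ℝ) + 3) ^ 2 + ((ij.2 : ℝ) + 3) ^ 2))
          = rho L η n / ((((ij.1 : ℝ) + 3) ^ 2 + ((ij.2 : ℝ) + 3) ^ 2) / (L n : ℝ) ^ 2) := by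
            unfold rho
            field_simp
        _ ≤ rho L η n / ‖y - pt ij‖ ^ 2 := by gcongr
    refine le_trans ?_ (Finset.sum_le_sum h4)
    rw [← Finset.mul_sum, Finset.sum_product]
    have h8 := hT n
    unfold TT at h8
    have h9 : K ≤ (n : ℝ) := by rw [hn]; push_cast; exact hmK
    exact h9.trans h8

lemma exists_poles_boundary {y : ℂ} (hy3 : ‖y‖ = 3) (K : ℝ) :
    ∃ (A : Finset ℂ) (c : ℂ → ℂ), (∀ a ∈ A, a ∉ XX L η) ∧
      (∀ z ∈ XX L η, ‖∑ a ∈ A, c a * (z - a)⁻¹‖ ≤ 2) ∧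
      K ≤ ‖∑ a ∈ A, c a * (y - a)⁻¹ ^ 2‖ := by
  set ε : ℝ := 1 / (|K| + 1) with hε
  have hε0 : 0 < ε := by positivity
  set b : ℂ := (1 + ε / 3 : ℝ) * y with hb
  have hbn : ‖b‖ = 3 + ε := by
    rw [hb, norm_mul, Complex.norm_real, Real.norm_of_nonneg (by positivity), hy3]
    ring
  have hyb : ‖y - b‖ = ε := by
    have : y - b = (-(ε / 3) : ℝ) * y := by
      rw [hb]; push_cast; ring
    rw [this, norm_mul, Complex.norm_real, Real.norm_eq_abs, abs_neg,
      abs_of_pos (by positivity), hy3]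
    ring
  refine ⟨{b}, fun _ => (ε : ℂ), ?_, ?_, ?_⟩
  · intro a ha
    rw [Finset.mem_singleton] at ha
    subst ha
    intro h1
    have := h1.1
    rw [mem_closedBall, dist_zero_right] at this
    linarith
  · intro z hz
    rw [Finset.sum_singleton, norm_mul, norm_inv, Complex.norm_real,
      Real.norm_of_nonneg hε0.le]
    have h1 : ‖z‖ ≤ 3 := by simpa using hz.1
    have h2 : ε ≤ ‖z - b‖ := by
      have := norm_sub_norm_le b z
      rw [norm_sub_rev] at this
      linarith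
    have h3 : ε * ‖z - b‖⁻¹ ≤ 1 := by
      rw [← div_eq_mul_inv, div_le_one (lt_of_lt_of_le hε0 h2)]
      exact h2
    linarith
  · rw [Finset.sum_singleton, norm_mul, norm_pow, norm_inv, Complex.norm_real,
      Real.norm_of_nonneg hε0.le, hyb]
    have h1 : ε * ε⁻¹ ^ 2 = |K| + 1 := by
      have : ε * ε⁻¹ ^ 2 = ε⁻¹ := by field_simp
      rw [this, hε]
      simp
    rw [h1]
    linarith [le_abs_self K]

end

end Pool.Agent.Lib.MP_7cb37e_an
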