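import Pool.Agent.Lib.MP_7cb37e_an.Approx
import Pool.Agent.Lib.MP_7cb37e_an.Deriv
import Pool.Agent.Lib.MP_7cb37e_an.Poles

set_option autoImplicit false

namespace Pool.Agent.Lib.MP_7cb37e_an

open Complex Metric Set

/-- one step of the choice of the parameters -/
lemma step_exists (n : ℕ) (e : ℝ) (l : ℕ) (he : 0 < e) (hl : 1 ≤ l) :
    ∃ (e' : ℝ) (l' s' : ℕ), 0 < e' ∧ 1 ≤ l' ∧ e' ≤ e / 2 ∧ 4 * (2 * s' + 5) * l ≤ l' ∧
      2 * e' * (s' : ℝ) ^ 2 ≤ l' ∧ ((n : ℝ) + 1) ≤ e' * TT s' ∧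
      1280 * e' ≤ 1 / ((n : ℝ) + 1) ∧
      (∀ g : ℂ → ℂ, DifferentiableOn ℂ g (Nb (1 / (8 * (l : ℝ)))) →
        (∀ w ∈ Nb (1 / (8 * (l : ℝ))), ‖g w‖ ≤ 100 * (l : ℝ)) →
        (∀ t : ℝ, 0 ≤ t → t ≤ 1 → ‖g (t : ℂ)‖ ≤ 2560 * e') → ‖g 2‖ ≤ 1 / ((n : ℝ) + 1)) := by
  have hl' : (1 : ℝ) ≤ l := by exact_mod_cast hl
  obtain ⟨ε, hε, hprop⟩ := propagation (1 / (8 * (l : ℝ))) (100 * (l : ℝ)) (1 / ((n : ℝ) + 1))
    (by positivity) (by rw [div_le_one (by positivity)]; linarith) (by positivity)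
  set e' : ℝ := min (e / 2) (min (ε / 2560) (1 / (1280 * ((n : ℝ) + 1)))) with he'
  have he'0 : 0 < e' := by
    rw [he']
    refine lt_min (by positivity) (lt_min (by positivity) (by positivity))
  have h1 : e' ≤ e / 2 := min_le_left _ _
  have h2 : e' ≤ ε / 2560 := (min_le_right _ _).trans (min_le_left _ _)
  have h3 : e' ≤ 1 / (1280 * ((n : ℝ) + 1)) := (min_le_right _ _).trans (min_le_right _ _)
  obtain ⟨s', hs'⟩ := TT_unbounded (((n : ℝ) + 1) / e')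
  refine ⟨e', 4 * (2 * s' + 5) * l + ⌈2 * e' * (s' : ℝ) ^ 2⌉₊, s', he'0, ?_, h1, ?_, ?_, ?_, ?_, ?_⟩
  · nlinarith
  · omega
  · push_cast
    have h4 := Nat.le_ceil (2 * e' * (s' : ℝ) ^ 2)
    have h5 : (0 : ℝ) ≤ 4 * (2 * s' + 5) * l := by positivity
    linarith
  · rw [div_le_iff₀ he'0] at hs'
    linarith
  · calc 1280 * e' ≤ 1280 * (1 / (1280 * ((n : ℝ) + 1))) := by gcongr
      _ = _ := by field_simp
  · intro g hg1 hg2 hg3
    apply hprop g hg1 hg2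
    intro t ht0 ht1
    have := hg3 t ht0 ht1
    linarith

/-- existence of the parameters -/
lemma params_exist : ∃ (L : ℕ → ℕ) (η : ℕ → ℝ) (S : ℕ → ℕ), Basic L η ∧
    (∀ n, η (n + 1) ≤ η n / 2) ∧
    (∀ m, 4 * (2 * S (m + 1) + 5) * L m ≤ L (m + 1)) ∧
    (∀ n, 2 * η n * (S n : ℝ) ^ 2 ≤ L n) ∧
    (∀ n : ℕ, (n : ℝ) ≤ η n * TT (S n)) ∧
    (∀ n : ℕ, 1280 * η (n + 1) ≤ 1 / ((n : ℝ) + 1)) ∧
    (∀ n : ℕ, ∀ g : ℂ → ℂ, DifferentiableOn ℂ g (Nb (1 / (8 * (L n : ℝ)))) →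
        (∀ w ∈ Nb (1 / (8 * (L n : ℝ))), ‖g w‖ ≤ 100 * (L n : ℝ)) →
        (∀ t : ℝ, 0 ≤ t → t ≤ 1 → ‖g (t : ℂ)‖ ≤ 2560 * η (n + 1)) →
        ‖g 2‖ ≤ 1 / ((n : ℝ) + 1)) := by
  choose! fe fl fs h using step_exists
  let st : ℕ → ℝ × ℕ × ℕ := fun n =>
    Nat.rec ((1 / 8 : ℝ), (1 : ℕ), (0 : ℕ)) (fun n s => (fe n s.1 s.2.1, fl n s.1 s.2.1, fs n s.1 s.2.1)) n
  have hst0 : st 0 = ((1 / 8 : ℝ), (1 : ℕ), (0 : ℕ)) := rfl
  have hstS : ∀ n, st (n + 1) =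
      (fe n (st n).1 (st n).2.1, fl n (st n).1 (st n).2.1, fs n (st n).1 (st n).2.1) := fun n => rfl
  have hval : ∀ n, 0 < (st n).1 ∧ 1 ≤ (st n).2.1 := by
    intro n
    induction n with
    | zero => rw [hst0]; norm_num
    | succ n ih =>
      have := h n (st n).1 (st n).2.1 ih.1 ih.2
      rw [hstS]
      exact ⟨this.1, this.2.1⟩
  have hR := fun n => h n (st n).1 (st n).2.1 (hval n).1 (hval n).2
  have hhalf : ∀ n, (st (n + 1)).1 ≤ (st n).1 / 2 := fun n => (hR n).2.2.1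
  have hle : ∀ n, (st n).1 ≤ 1 / 8 := by
    intro n
    induction n with
    | zero => rw [hst0]
    | succ n ih =>
      have h1 := hhalf n
      have h2 := (hval n).1
      linarith
  have hLstep : ∀ m, 4 * (2 * (st (m + 1)).2.2 + 5) * (st m).2.1 ≤ (st (m + 1)).2.1 :=
    fun n => (hR n).2.2.2.1
  refine ⟨fun n => (st n).2.1, fun n => (st n).1, fun n => (st n).2.2, ?_, hhalf, hLstep, ?_, ?_,
    ?_, ?_⟩
  · refine ⟨fun n => (hval n).2, fun n => (hval n).1, hle, ?_⟩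
    intro n
    have h1 := hLstep n
    show (st n).2.1 ≤ (st (n + 1)).2.1
    nlinarith
  · intro n
    cases n with
    | zero =>
      show 2 * (st 0).1 * (((st 0).2.2 : ℕ) : ℝ) ^ 2 ≤ (((st 0).2.1 : ℕ) : ℝ)
      rw [hst0]; norm_num
    | succ n => exact (hR n).2.2.2.2.1
  · intro n
    cases n with
    | zero =>
      show ((0 : ℕ) : ℝ) ≤ (st 0).1 * TT ((st 0).2.2)
      rw [hst0]; simp [TT]
    | succ n =>
      have := (hR n).2.2.2.2.2.1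
      push_cast
      exact this
  · intro n
    exact (hR n).2.2.2.2.2.2.1
  · intro n
    exact (hR n).2.2.2.2.2.2.2

/-- The set `XX` is not a regularity set: functions vanishing on `[0,1]` vanish at `2`. -/
lemma vanish_propagates {L : ℕ → ℕ} {η : ℕ → ℝ} (h : Basic L η)
    (hhalf : ∀ n, η (n + 1) ≤ η n / 2)
    (hsmall : ∀ n : ℕ, 1280 * η (n + 1) ≤ 1 / ((n : ℝ) + 1))
    (hprop : ∀ n : ℕ, ∀ g : ℂ → ℂ, DifferentiableOn ℂ g (Nb (1 / (8 * (L n : ℝ)))) →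
        (∀ w ∈ Nb (1 / (8 * (L n : ℝ))), ‖g w‖ ≤ 100 * (L n : ℝ)) →
        (∀ t : ℝ, 0 ≤ t → t ≤ 1 → ‖g (t : ℂ)‖ ≤ 2560 * η (n + 1)) →
        ‖g 2‖ ≤ 1 / ((n : ℝ) + 1))
    [CompactSpace (XX L η)]
    (f : C(XX L η, ℂ)) (hf : f ∈ closure (Rat0 (XX L η)))
    (hf0 : ∀ z : XX L η, (z : ℂ).im = 0 → 0 ≤ (z : ℂ).re → (z : ℂ).re ≤ 1 → f z = 0)
    (x : XX L η) (hx : (x : ℂ) = 2) : f x = 0 := by
  set B : ℝ := ‖f‖ + 1 with hB
  have hB1 : 1 ≤ B := by rw [hB]; linarith [norm_nonneg f]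
  have hB0 : 0 < B := by linarith
  have key : ∀ n : ℕ, ‖f x‖ ≤ (1 + 2 * B) * (1 / ((n : ℝ) + 1)) := by
    intro n
    have hη := h.ηpos (n + 1)
    obtain ⟨f', ⟨p, q, hq, hpq⟩, hff'⟩ := Metric.mem_closure_iff.1 hf (1280 * η (n + 1))
      (by positivity)
    have hsm := hsmall n
    have hn1 : 1 / ((n : ℝ) + 1) ≤ 1 := by
      rw [div_le_one (by positivity)]
      have : (0 : ℝ) ≤ n := Nat.cast_nonneg n
      linarith
    have hdiff : ∀ z : XX L η, ‖f z - f' z‖ ≤ 1280 * η (n + 1) := by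
      intro z
      have h1 := (f - f').norm_coe_le_norm z
      rw [dist_eq_norm] at hff'
      rw [ContinuousMap.sub_apply] at h1
      linarith
    have hf'B : ∀ z ∈ XX L η, ‖p.eval z / q.eval z‖ ≤ B := by
      intro z hz
      have h1 := hpq ⟨z, hz⟩
      simp only at h1
      rw [← h1]
      have h2 := hdiff ⟨z, hz⟩
      have h3 := f.norm_coe_le_norm ⟨z, hz⟩
      have h4 : ‖f' ⟨z, hz⟩‖ ≤ ‖f ⟨z, hz⟩‖ + ‖f ⟨z, hz⟩ - f' ⟨z, hz⟩‖ := by
        have := norm_sub_norm_le (f' ⟨z, hz⟩) (f ⟨z, hz⟩)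
        rw [norm_sub_rev] at this
        linarith
      linarith
    obtain ⟨g, hg1, hg2, hg3⟩ := rational_approx h hhalf n p q hq hB0.le hf'B
    have hG := hprop n (fun w => (B⁻¹ : ℂ) * g w) (hg1.const_mul _)
      (by
        intro w hw
        have h1 := hg2 w hw
        rw [norm_mul, norm_inv, Complex.norm_real, Real.norm_of_nonneg hB0.le]
        calc B⁻¹ * ‖g w‖ ≤ B⁻¹ * (100 * (L n : ℝ) * B) := by gcongr
          _ = 100 * (L n : ℝ) := by field_simp)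
      (by
        intro t ht0 ht1
        rw [norm_mul, norm_inv, Complex.norm_real, Real.norm_of_nonneg hB0.le]
        have htX : (t : ℂ) ∈ XX L η := seg_mem_XX h ht0 (by linarith)
        have h1 := hg3 t ht0 (by linarith)
        have h2 := hpq ⟨(t : ℂ), htX⟩
        simp only at h2
        have h3 := hf0 ⟨(t : ℂ), htX⟩ (by simp) (by simpa using ht0) (by simpa using ht1)
        have h4 := hdiff ⟨(t : ℂ), htX⟩
        rw [h3, zero_sub, norm_neg, h2] at h4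
        have h5 : ‖g (t : ℂ)‖ ≤ 1280 * η (n + 1) + 1280 * η (n + 1) * B := by
          have := norm_sub_norm_le (g (t : ℂ)) (p.eval (t : ℂ) / q.eval (t : ℂ))
          rw [norm_sub_rev] at this
          linarith
        calc B⁻¹ * ‖g (t : ℂ)‖ ≤ B⁻¹ * (1280 * η (n + 1) + 1280 * η (n + 1) * B) := by gcongr
          _ ≤ B⁻¹ * (1280 * η (n + 1) * B + 1280 * η (n + 1) * B) := by
            have h13 : 1280 * η (n + 1) ≤ 1280 * η (n + 1) * B := by nlinarith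
            exact mul_le_mul_of_nonneg_left (by linarith) (by positivity)
          _ = 2560 * η (n + 1) := by field_simp; ring)
    rw [norm_mul, norm_inv, Complex.norm_real, Real.norm_of_nonneg hB0.le] at hG
    have hG' : ‖g 2‖ ≤ B * (1 / ((n : ℝ) + 1)) := by
      calc ‖g 2‖ = B * (B⁻¹ * ‖g 2‖) := by field_simp
        _ ≤ _ := by gcongr
    have h6 := hg3 2 (by norm_num) le_rfl
    have h7 := hpq x
    rw [hx] at h7
    have h8 := hdiff x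
    have h9 : ((2 : ℝ) : ℂ) = 2 := by norm_num
    rw [h9, ← h7] at h6
    have h10 : ‖f x‖ ≤ ‖f x - f' x‖ + ‖f' x - g 2‖ + ‖g 2‖ := by
      calc ‖f x‖ = ‖(f x - f' x) + (f' x - g 2) + g 2‖ := by ring_nf
        _ ≤ _ := norm_add₃_le
    have h11 : 1280 * η (n + 1) * B ≤ 1 / ((n : ℝ) + 1) * B := by gcongr
    calc ‖f x‖ ≤ 1280 * η (n + 1) + 1280 * η (n + 1) * B + B * (1 / ((n : ℝ) + 1)) := by linarith
      _ ≤ 1 / ((n : ℝ) + 1) + 1 / ((n : ℝ) + 1) * B + B * (1 / ((n : ℝ) + 1)) := by linarith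
      _ = _ := by ring
  have hlim : Filter.Tendsto (fun n : ℕ => (1 + 2 * B) * (1 / ((n : ℝ) + 1))) Filter.atTop
      (nhds ((1 + 2 * B) * 0)) :=
    tendsto_one_div_add_atTop_nhds_zero_nat.const_mul _
  rw [mul_zero] at hlim
  have h12 := ge_of_tendsto' hlim key
  exact norm_le_zero_iff.1 h12

end Pool.Agent.Lib.MP_7cb37e_an
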